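import Mathlib

set_option autoImplicit false

namespace Pool.Agent.Helper75.OH

open Ordinal
open scoped commutatorElement

/-- `N` is fully invariant in the free group of countable rank. -/
def FI (N : Subgroup (FreeGroup ℕ)) : Prop :=
  ∀ φ : FreeGroup ℕ →* FreeGroup ℕ, ∀ x ∈ N, φ x ∈ N

/-- Every well-ordered chain of proper subvarieties has order type at most `α`. -/
def Upper (N : Subgroup (FreeGroup ℕ)) (α : Ordinal.{0}) : Prop :=
  ∀ S : Set (Subgroup (FreeGroup ℕ)),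
    (∀ M ∈ S, FI M ∧ N < M) →
    IsChain (· ≤ ·) S →
    (∀ T ⊆ S, T.Nonempty → ∃ M ∈ T, ∀ M' ∈ T, M' ≤ M) →
    ∃ f : Subgroup (FreeGroup ℕ) → Ordinal.{0},
      (∀ A ∈ S, f A < α) ∧ (∀ A ∈ S, ∀ B ∈ S, B < A → f A < f B)

/-- For every `β < α` some chain of proper subvarieties has type above `β`. -/
def Lower (N : Subgroup (FreeGroup ℕ)) (α : Ordinal.{0}) : Prop :=
  ∀ β < α, ∃ g : Ordinal.{0} → Subgroup (FreeGroup ℕ),
    (∀ γ ≤ β, FI (g γ) ∧ N < g γ) ∧
    (∀ γ δ : Ordinal.{0}, γ < δ → δ ≤ β → g δ < g γ)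

/-- The derived subgroup of the free group. -/
abbrev D1 : Subgroup (FreeGroup ℕ) := commutator (FreeGroup ℕ)

/-- The second derived subgroup of the free group. -/
abbrev D2 : Subgroup (FreeGroup ℕ) := ⁅D1, D1⁆

/-- The words `[x₀, x₁, x₂^(p^l₁), x₃^(p^l₂), …]` for a list of levels. -/
def wd (p : ℕ) : List ℕ → FreeGroup ℕ
  | [] => ⁅FreeGroup.of 0, FreeGroup.of 1⁆
  | l :: L => ⁅wd p L, FreeGroup.of (L.length + 2) ^ (p ^ l)⁆

/-- The product of the factors `c_k^(p^l)` that belongs to `wd p L`. -/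
def lp (p : ℕ) {R : Type} [CommRing R] (c : ℕ → R) : List ℕ → R
  | [] => 1
  | l :: L => lp p c L * c (L.length + 2) ^ (p ^ l)

/-- Comparison of sequences of natural numbers at the last place where they differ. -/
def Ltf (d a : ℕ → ℕ) : Prop := ∃ i, d i < a i ∧ ∀ m, i < m → d m = a m

/-- Monomials `(e, i, j)`, standing for `[x_i, x_j]` conjugated by `∏ x_n ^ e_n`. -/
abbrev Mon : Type := (ℕ →₀ ℕ) × ℕ × ℕ

/-- The move: rename the variables by `σ`, multiply by `t`. -/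
noncomputable def mv (σ : ℕ → ℕ) (t : ℕ →₀ ℕ) (s : Mon) : Mon :=
  (s.1.mapDomain σ + t, σ s.2.1, σ s.2.2)

/-- The word `∏ x_n ^ e_n` (in increasing order of `n`). -/
noncomputable def ww (e : ℕ →₀ ℕ) : FreeGroup ℕ :=
  ((List.range (e.support.sup id + 1)).map (fun n => FreeGroup.of n ^ e n)).prod

/-- The element of `F'` of a monomial. -/
noncomputable def gm (s : Mon) : FreeGroup ℕ :=
  (ww s.1)⁻¹ * ⁅FreeGroup.of s.2.1, FreeGroup.of s.2.2⁆ * ww s.1

theorem conj_mem_D1 {x : FreeGroup ℕ} (hx : x ∈ D1) (w : FreeGroup ℕ) : w⁻¹ * x * w ∈ D1 := by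
  have h := (inferInstance : (commutator (FreeGroup ℕ)).Normal).conj_mem x hx w⁻¹
  simpa using h

theorem comm_mem_D1 (x y : FreeGroup ℕ) : ⁅x, y⁆ ∈ D1 :=
  Subgroup.commutator_mem_commutator (Subgroup.mem_top _) (Subgroup.mem_top _)

theorem gm_mem (s : Mon) : gm s ∈ D1 := conj_mem_D1 (comm_mem_D1 _ _) _

/-- Evaluation of formal sums of monomials in `F'/F''`. -/
noncomputable def Ph : (Mon →₀ ℤ) →+ Additive (Abelianization ↥D1) :=
  Finsupp.liftAddHom (fun s =>
    zmultiplesHom _ (Additive.ofMul (Abelianization.of (⟨gm s, gm_mem s⟩ : ↥D1))))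

/-- The formal sums of monomials whose value lies in `N`. -/
noncomputable def IN (N : Subgroup (FreeGroup ℕ)) : AddSubgroup (Mon →₀ ℤ) :=
  AddSubgroup.comap Ph (Subgroup.toAddSubgroup ((N.subgroupOf D1).map Abelianization.of))

end Pool.Agent.Helper75.OH
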