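import Pool.Agent.Helper75.OH.Defs

set_option autoImplicit false

namespace Pool.Agent.Helper75.OH
open Ordinal
open scoped commutatorElement


theorem ab_mem (N : Subgroup (FreeGroup ℕ)) (hN : D2 ≤ N) (x : ↥D1) :
    Abelianization.of x ∈ (N.subgroupOf D1).map Abelianization.of ↔ (x : FreeGroup ℕ) ∈ N := by
  constructor
  · intro h
    obtain ⟨y, hy, hyx⟩ := Subgroup.mem_map.mp h
    have hyN : (y : FreeGroup ℕ) ∈ N := Subgroup.mem_subgroupOf.mp hy
    have h1 : y⁻¹ * x ∈ (Abelianization.of : ↥D1 →* Abelianization ↥D1).ker := by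
      rw [MonoidHom.mem_ker, map_mul, map_inv, hyx, inv_mul_cancel]
    rw [Abelianization.ker_of] at h1
    have h2 : ((y⁻¹ * x : ↥D1) : FreeGroup ℕ) ∈ (D2 : Subgroup (FreeGroup ℕ)) := by
      have h3 : (D1.subtype) (y⁻¹ * x) ∈ (_root_.commutator ↥D1).map D1.subtype :=
        Subgroup.mem_map_of_mem _ h1
      rw [Subgroup.map_subtype_commutator] at h3
      exact h3
    have h4 := N.mul_mem hyN (hN h2)
    have h5 : (y : FreeGroup ℕ) * ((y⁻¹ * x : ↥D1) : FreeGroup ℕ) = x := by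
      simp
    rwa [h5] at h4
  · intro h
    exact Subgroup.mem_map_of_mem _ (Subgroup.mem_subgroupOf.mpr h)

end Pool.Agent.Helper75.OH
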