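import Pool.Agent.Helper75.OH.Defs
import Pool.Agent.Helper75.OH.P_ab_mem

set_option autoImplicit false

namespace Pool.Agent.Helper75.OH
open Ordinal
open scoped commutatorElement


theorem IN_iff (N : Subgroup (FreeGroup ℕ)) (hN : D2 ≤ N) (f : Mon →₀ ℤ) (x : ↥D1)
    (hx : Ph f = Additive.ofMul (Abelianization.of x)) : f ∈ IN N ↔ (x : FreeGroup ℕ) ∈ N := by
  rw [← ab_mem N hN x]
  unfold IN
  rw [AddSubgroup.mem_comap, hx]
  exact Iff.rfl

end Pool.Agent.Helper75.OH
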