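import Pool.Agent.Helper75.OH.Defs

set_option autoImplicit false

namespace Pool.Agent.Helper75.OH
open Ordinal
open scoped commutatorElement


theorem ab_ww_list {M : Type*} [CommMonoid M] (f : ℕ → M) (n : ℕ) :
    ((List.range n).map f).prod = ∏ i ∈ Finset.range n, f i := by
  induction n with
  | zero => simp
  | succ n ih => rw [List.range_succ, List.map_append, List.prod_append, ih, Finset.prod_range_succ]; simp

theorem ab_ww (e : ℕ →₀ ℕ) : Abelianization.of (ww e) =
    e.prod (fun n k => Abelianization.of (FreeGroup.of n) ^ k) := by
  unfold ww
  rw [map_list_prod, List.map_map, ab_ww_list]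
  unfold Finsupp.prod
  symm
  have hsub : e.support ⊆ Finset.range (e.support.sup id + 1) := by
    intro a ha
    rw [Finset.mem_range]
    have : id a ≤ e.support.sup id := Finset.le_sup ha
    simp only [id] at this
    omega
  rw [Finset.prod_subset hsub]
  · apply Finset.prod_congr rfl
    intro a _
    simp only [Function.comp, map_pow]
  · intro a _ ha
    rw [Finsupp.notMem_support_iff.mp ha]
    exact pow_zero _

end Pool.Agent.Helper75.OH
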