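import Pool.Agent.Helper75.OH.Defs

set_option autoImplicit false

namespace Pool.Agent.Helper75.OH
open Ordinal
open scoped commutatorElement


theorem conj_ab (x : ↥D1) (w w' : FreeGroup ℕ)
    (h : Abelianization.of w = Abelianization.of w') :
    Abelianization.of (⟨w⁻¹ * x * w, conj_mem_D1 x.2 w⟩ : ↥D1) =
      Abelianization.of (⟨w'⁻¹ * x * w', conj_mem_D1 x.2 w'⟩ : ↥D1) := by
  have hd : w⁻¹ * w' ∈ D1 := by
    have h1 : w⁻¹ * w' ∈ (Abelianization.of : FreeGroup ℕ →* Abelianization (FreeGroup ℕ)).ker := by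
      rw [MonoidHom.mem_ker, map_mul, map_inv, h, inv_mul_cancel]
    rwa [Abelianization.ker_of] at h1
  have h2 : (⟨w'⁻¹ * x * w', conj_mem_D1 x.2 w'⟩ : ↥D1) =
      (⟨w⁻¹ * w', hd⟩ : ↥D1)⁻¹ * (⟨w⁻¹ * x * w, conj_mem_D1 x.2 w⟩ : ↥D1) *
        (⟨w⁻¹ * w', hd⟩ : ↥D1) := by
    apply Subtype.ext
    show w'⁻¹ * x * w' = (w⁻¹ * w')⁻¹ * (w⁻¹ * x * w) * (w⁻¹ * w')
    group
  rw [h2, map_mul, map_mul, map_inv, mul_comm, mul_inv_cancel_left]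

end Pool.Agent.Helper75.OH
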