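import Pool.Agent.Helper75.OH.Defs
import Pool.Agent.Helper75.OH.P_conj_ab
import Pool.Agent.Helper75.OH.P_ab_ww

set_option autoImplicit false

namespace Pool.Agent.Helper75.OH
open Ordinal
open scoped commutatorElement


/-- renaming of the variables -/
noncomputable abbrev psi (σ : ℕ → ℕ) : FreeGroup ℕ →* FreeGroup ℕ :=
  FreeGroup.lift (fun n => FreeGroup.of (σ n))

theorem psi_mem (σ : ℕ → ℕ) (x : ↥D1) : psi σ (x : FreeGroup ℕ) ∈ D1 :=
  (Subgroup.map_commutator ⊤ ⊤ (FreeGroup.lift (fun n => FreeGroup.of (σ n)))).le.trans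
    (Subgroup.commutator_mono le_top le_top) ⟨x, x.2, rfl⟩

/-- the move on `F'` -/
noncomputable def th0 (σ : ℕ → ℕ) (t : ℕ →₀ ℕ) : ↥D1 →* Abelianization ↥D1 where
  toFun y := Abelianization.of (⟨(ww t)⁻¹ * psi σ (y : FreeGroup ℕ) * ww t,
    conj_mem_D1 (psi_mem σ y) _⟩ : ↥D1)
  map_one' := by
    rw [← map_one Abelianization.of]
    congr 1
    apply Subtype.ext
    show (ww t)⁻¹ * psi σ (1 : FreeGroup ℕ) * ww t = 1
    rw [map_one, mul_one, inv_mul_cancel]
  map_mul' a b := by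
    rw [← map_mul Abelianization.of]
    congr 1
    apply Subtype.ext
    show (ww t)⁻¹ * psi σ ((a : FreeGroup ℕ) * b) * ww t =
      ((ww t)⁻¹ * psi σ (a : FreeGroup ℕ) * ww t) * ((ww t)⁻¹ * psi σ (b : FreeGroup ℕ) * ww t)
    rw [map_mul]
    group

theorem ab_psi (σ : ℕ → ℕ) (e : ℕ →₀ ℕ) : Abelianization.of (psi σ (ww e)) =
    e.prod (fun n k => Abelianization.of (FreeGroup.of (σ n)) ^ k) := by
  rw [← Abelianization.map_of, ab_ww, map_finsuppProd]
  refine Finsupp.prod_congr fun n _ => ?_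
  rw [map_pow, Abelianization.map_of]
  congr 2

theorem move_gm (σ : ℕ → ℕ) (t : ℕ →₀ ℕ) (s : Mon) :
    Abelianization.of (⟨gm (mv σ t s), gm_mem _⟩ : ↥D1) = th0 σ t ⟨gm s, gm_mem s⟩ := by
  obtain ⟨e, i, j⟩ := s
  have h : Abelianization.of (ww (e.mapDomain σ + t)) =
      Abelianization.of (psi σ (ww e) * ww t) := by
    rw [map_mul, ab_psi, ab_ww, ab_ww, Finsupp.prod_add_index', Finsupp.prod_mapDomain_index]
    · intro n
      exact pow_zero _
    · intro n k l
      exact pow_add _ _ _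
    · intro n
      exact pow_zero _
    · intro n k l
      exact pow_add _ _ _
  have h1 := conj_ab ⟨⁅FreeGroup.of (σ i), FreeGroup.of (σ j)⁆, comm_mem_D1 _ _⟩ _ _ h
  refine h1.trans ?_
  show _ = Abelianization.of _
  congr 1
  apply Subtype.ext
  show (psi σ (ww e) * ww t)⁻¹ * ⁅FreeGroup.of (σ i), FreeGroup.of (σ j)⁆ *
    (psi σ (ww e) * ww t) =
    (ww t)⁻¹ * psi σ ((ww e)⁻¹ * ⁅FreeGroup.of i, FreeGroup.of j⁆ * ww e) * ww t
  rw [map_mul, map_mul, map_inv, map_commutatorElement]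
  have e1 : ∀ n, psi σ (FreeGroup.of n) = FreeGroup.of (σ n) := fun n =>
    FreeGroup.lift_apply_of
  rw [e1, e1]
  group

/-- Evaluation after a move is the image under an endomorphism followed by conjugation. -/
theorem Ph_move (σ : ℕ → ℕ) (t : ℕ →₀ ℕ) (f : Mon →₀ ℤ) (x : ↥D1)
    (hx : Ph f = Additive.ofMul (Abelianization.of x)) (hσ : Function.Injective σ) :
    Ph (f.mapDomain (mv σ t)) = Additive.ofMul (Abelianization.of
      (⟨(ww t)⁻¹ * FreeGroup.lift (fun n => FreeGroup.of (σ n)) (x : FreeGroup ℕ) * ww t,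
        conj_mem_D1 ((Subgroup.map_commutator ⊤ ⊤ (FreeGroup.lift (fun n => FreeGroup.of (σ n)))).le.trans (Subgroup.commutator_mono le_top le_top) ⟨x, x.2, rfl⟩) _⟩ : ↥D1)) := by
  have key : Ph.comp (Finsupp.mapDomain.addMonoidHom (mv σ t)) =
      (MonoidHom.toAdditive (Abelianization.lift (th0 σ t))).comp Ph := by
    apply Finsupp.addHom_ext
    intro s k
    rw [AddMonoidHom.comp_apply, AddMonoidHom.comp_apply, Finsupp.mapDomain.addMonoidHom_apply,
      Finsupp.mapDomain_single]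
    unfold Ph
    rw [Finsupp.liftAddHom_apply_single, Finsupp.liftAddHom_apply_single, zmultiplesHom_apply,
      zmultiplesHom_apply, map_zsmul]
    congr 1
    show Additive.ofMul (Abelianization.of (⟨gm (mv σ t s), gm_mem _⟩ : ↥D1)) =
      Additive.ofMul (Abelianization.lift (th0 σ t)
        (Abelianization.of (⟨gm s, gm_mem s⟩ : ↥D1)))
    rw [Abelianization.lift_apply_of, move_gm]
  have h1 := DFunLike.congr_fun key f
  rw [AddMonoidHom.comp_apply, AddMonoidHom.comp_apply, Finsupp.mapDomain.addMonoidHom_apply,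
    hx] at h1
  rw [h1]
  show Additive.ofMul (Abelianization.lift (th0 σ t) (Abelianization.of x)) = _
  rw [Abelianization.lift_apply_of]
  rfl

end Pool.Agent.Helper75.OH
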