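import Pool.Agent.Helper75.OH.Defs
import Pool.Agent.Helper75.OH.P_Ph_move
import Pool.Agent.Helper75.OH.P_IN_iff

set_option autoImplicit false

namespace Pool.Agent.Helper75.OH
open Ordinal
open scoped commutatorElement


theorem IN_move (N : Subgroup (FreeGroup ℕ)) (hF : FI N) (hN : D2 ≤ N) (σ : ℕ → ℕ)
    (hσ : StrictMono σ) (t : ℕ →₀ ℕ) (f : Mon →₀ ℤ) (hf : f ∈ IN N) :
    f.mapDomain (mv σ t) ∈ IN N := by
  obtain ⟨x, hx⟩ : ∃ x : ↥D1, Ph f = Additive.ofMul (Abelianization.of x) := by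
    obtain ⟨x, hx⟩ := QuotientGroup.mk_surjective (Additive.toMul (Ph f))
    exact ⟨x, congrArg Additive.ofMul hx.symm⟩
  have hxN : (x : FreeGroup ℕ) ∈ N := (IN_iff N hN f x hx).1 hf
  rw [IN_iff N hN _ _ (Ph_move σ t f x hx hσ.injective)]
  have h1 : FreeGroup.lift (fun n => FreeGroup.of (σ n)) (x : FreeGroup ℕ) ∈ N :=
    hF _ _ hxN
  have h2 := hF (MulAut.conj (ww t)⁻¹).toMonoidHom _ h1
  simpa using h2

end Pool.Agent.Helper75.OH
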