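import Mathlib
import Pool.Agent.Helper75.OH.Defs
set_option autoImplicit false
namespace Pool.Agent.Helper75.OH

theorem span_pow {R : Type} [CommRing R] {ι : Type} [Fintype ι] (z : ι → R) (n : ι → ℕ)
    (h : ∀ s, z s ^ (n s + 1) = 0) :
    (Ideal.span (Set.range z)) ^ (∑ s, n s + 1) = ⊥ := by
  classical
  have key : ∀ S : Finset ι, (Ideal.span (z '' (S : Set ι))) ^ (∑ s ∈ S, n s + 1) = ⊥ := by
    intro S
    induction S using Finset.induction_on with
    | empty => simp
    | insert a S ha ih =>
      rw [Finset.sum_insert ha, Finset.coe_insert, Set.image_insert_eq, Ideal.span_insert,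
        ← Submodule.add_eq_sup, add_pow]
      rw [← Ideal.zero_eq_bot] at ih ⊢
      apply Finset.sum_eq_zero
      intro m hm
      have hm' : m ≤ n a + ∑ s ∈ S, n s + 1 := by
        have := Finset.mem_range.1 hm
        omega
      by_cases hc : n a + 1 ≤ m
      · have : Ideal.span {z a} ^ m = 0 := by
          obtain ⟨k, rfl⟩ := Nat.exists_eq_add_of_le hc
          rw [pow_add, Ideal.span_singleton_pow, h a]
          simp
        rw [this]; simp
      · have : Ideal.span (z '' (S : Set ι)) ^ (n a + ∑ s ∈ S, n s + 1 - m) = 0 := by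
          have h1 : ∑ s ∈ S, n s + 1 ≤ n a + ∑ s ∈ S, n s + 1 - m := by omega
          obtain ⟨k, hk⟩ := Nat.exists_eq_add_of_le h1
          rw [hk, pow_add, ih]
          simp
        rw [this]; simp
  have := key Finset.univ
  simpa using this
end Pool.Agent.Helper75.OH
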