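import Pool.Agent.Helper75.OH.Defs
import Pool.Agent.Helper75.OH.P_span_pow

set_option autoImplicit false

namespace Pool.Agent.Helper75.OH
open Ordinal
open scoped commutatorElement


theorem I_pow (p : ℕ) [Fact p.Prime] {R : Type} [CommRing R]
    (d : ℕ →₀ ℕ) (y0 : R) (y : ℕ → ℕ → R) (h0 : y0 ^ 2 = 0)
    (hy : ∀ m j, j < d m → y m j ^ (p ^ m + 1) = 0) :
    (Ideal.span ({y0} ∪ {z | ∃ m j, j < d m ∧ z = y m j})) ^
      ((∑ m ∈ d.support, d m * (if 0 ≤ m then p ^ (m - 0) else 0)) + 2) = ⊥ := by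
  classical
  let z : Option ((m : {m // m ∈ d.support}) × Fin (d m.1)) → R := fun o =>
    match o with
    | none => y0
    | some s => y s.1.1 s.2
  let n : Option ((m : {m // m ∈ d.support}) × Fin (d m.1)) → ℕ := fun o =>
    match o with
    | none => 1
    | some s => p ^ s.1.1
  have h : ∀ s, z s ^ (n s + 1) = 0 := by
    intro s
    rcases s with _ | ⟨m, j⟩
    · exact h0
    · exact hy m.1 j j.2
  have hr : Set.range z = {y0} ∪ {z | ∃ m j, j < d m ∧ z = y m j} := by
    ext x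
    constructor
    · rintro ⟨s, rfl⟩
      rcases s with _ | ⟨m, j⟩
      · exact Or.inl rfl
      · exact Or.inr ⟨m.1, j, j.2, rfl⟩
    · rintro (hx | ⟨m, j, hj, rfl⟩)
      · exact ⟨none, hx.symm⟩
      · have hm : m ∈ d.support := by
          rw [Finsupp.mem_support_iff]
          omega
        exact ⟨some ⟨⟨m, hm⟩, ⟨j, hj⟩⟩, rfl⟩
  have hs : ∑ s, n s + 1 = (∑ m ∈ d.support, d m * (if 0 ≤ m then p ^ (m - 0) else 0)) + 2 := by
    rw [Fintype.sum_option, Fintype.sum_sigma]
    have h1 : ∀ m : {m // m ∈ d.support}, ∑ j : Fin (d m.1), n (some ⟨m, j⟩) = d m.1 * p ^ m.1 := by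
      intro m
      simp [n]
    rw [Finset.sum_congr rfl fun m _ => h1 m]
    have h2 : ∑ m : {m // m ∈ d.support}, d m.1 * p ^ m.1 = ∑ m ∈ d.support, d m * p ^ m :=
      Finset.sum_coe_sort d.support (fun m => d m * p ^ m)
    rw [h2]
    simp only [Nat.zero_le, if_true, Nat.sub_zero]
    change 1 + _ + 1 = _
    omega
  have key := span_pow z n h
  rw [hr, hs] at key
  exact key

end Pool.Agent.Helper75.OH
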