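import Pool.Agent.Helper75.OH.Defs
import Pool.Agent.Helper75.OH.P_span_pow

set_option autoImplicit false

namespace Pool.Agent.Helper75.OH
open Ordinal
open scoped commutatorElement


theorem J_pow (p : ℕ) [Fact p.Prime] {R : Type} [CommRing R]
    (d : ℕ →₀ ℕ) (y : ℕ → ℕ → R)
    (hy : ∀ m j, j < d m → y m j ^ (p ^ m + 1) = 0) (i : ℕ) :
    (Ideal.span {z | ∃ m j, i ≤ m ∧ j < d m ∧ z = y m j ^ (p ^ i)}) ^
      ((∑ m ∈ d.support, d m * (if i ≤ m then p ^ (m - i) else 0)) + 1) = ⊥ := by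
  classical
  have hp : 0 < p := (Fact.out : p.Prime).pos
  let z : (Σ m : d.support, Fin (d m)) → R := fun s =>
    if i ≤ (s.1 : ℕ) then y s.1 s.2 ^ (p ^ i) else 0
  let n : (Σ m : d.support, Fin (d m)) → ℕ := fun s =>
    if i ≤ (s.1 : ℕ) then p ^ ((s.1 : ℕ) - i) else 0
  have hz : ∀ s, z s ^ (n s + 1) = 0 := by
    rintro ⟨⟨m, hm⟩, j⟩
    by_cases him : i ≤ m
    · simp only [z, n, if_pos him]
      rw [← pow_mul]
      have h1 : p ^ i * (p ^ (m - i) + 1) = p ^ m + p ^ i := by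
        rw [Nat.mul_add, ← pow_add, Nat.add_sub_cancel' him, Nat.mul_one]
      rw [h1]
      have h2 : p ^ m + 1 ≤ p ^ m + p ^ i := Nat.add_le_add_left (Nat.one_le_pow _ _ hp) _
      exact pow_eq_zero_of_le h2 (hy m j j.2)
    · simp only [z, n, if_neg him]
      simp
  have hmain := span_pow z n hz
  have hsum : ∑ s, n s = ∑ m ∈ d.support, d m * (if i ≤ m then p ^ (m - i) else 0) := by
    rw [Fintype.sum_sigma]
    rw [← Finset.sum_coe_sort d.support (fun m => d m * (if i ≤ m then p ^ (m - i) else 0))]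
    refine Finset.sum_congr rfl fun m _ => ?_
    simp only [n]
    rw [Finset.sum_const, Finset.card_univ, Fintype.card_fin, _root_.smul_eq_mul]
  rw [hsum] at hmain
  rw [eq_bot_iff, ← hmain]
  refine Ideal.pow_right_mono (Ideal.span_mono ?_) _
  rintro x ⟨m, j, him, hj, rfl⟩
  have hm : m ∈ d.support := by
    rw [Finsupp.mem_support_iff]
    omega
  refine ⟨⟨⟨m, hm⟩, ⟨j, hj⟩⟩, ?_⟩
  simp only [z, if_pos him]

end Pool.Agent.Helper75.OH
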