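import Pool.Agent.Helper75.OH.Defs

set_option autoImplicit false

namespace Pool.Agent.Helper75.OH
open Ordinal
open scoped commutatorElement


open Pointwise in
theorem ab_part_mul {N : Subgroup (FreeGroup ℕ)} {g : FreeGroup ℕ} (hg : g ∈ N ⊔ D1) :
    ∃ a ∈ N, ∃ c ∈ D1, a * c = g := by
  have h3 : g ∈ (N : Set (FreeGroup ℕ)) * (D1 : Set (FreeGroup ℕ)) := by
    rw [← Subgroup.mul_normal]
    exact hg
  obtain ⟨a, ha, c, hc, hac⟩ := h3
  exact ⟨a, ha, c, hc, hac⟩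

theorem ab_part_FI {N : Subgroup (FreeGroup ℕ)} (hN : FI N) : FI (N ⊔ D1) := by
  intro φ x hx
  have h1 : (N ⊔ D1).map φ ≤ N ⊔ D1 := by
    rw [Subgroup.map_sup]
    apply sup_le_sup
    · rintro _ ⟨y, hy, rfl⟩
      exact hN φ y hy
    · show (commutator (FreeGroup ℕ)).map φ ≤ commutator (FreeGroup ℕ)
      rw [commutator_def, Subgroup.map_commutator]
      exact Subgroup.commutator_mono le_top le_top
  exact h1 ⟨x, hx, rfl⟩

/-- projection to one variable -/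
def ab_part_eps (n : ℕ) : FreeGroup ℕ →* FreeGroup ℕ :=
  FreeGroup.lift (fun m => if m = n then FreeGroup.of n else 1)

theorem ab_part_eps_mem (n : ℕ) (g : FreeGroup ℕ) :
    ab_part_eps n g ∈ Subgroup.zpowers (FreeGroup.of n : FreeGroup ℕ) := by
  induction g using FreeGroup.induction_on with
  | C1 => rw [map_one]; exact Subgroup.one_mem _
  | of m =>
    unfold ab_part_eps
    rw [FreeGroup.lift_apply_of]
    split_ifs
    · exact Subgroup.mem_zpowers _
    · exact Subgroup.one_mem _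
  | inv_of m h =>
    rw [map_inv]
    exact Subgroup.inv_mem _ h
  | mul x y hx hy =>
    rw [map_mul]
    exact Subgroup.mul_mem _ hx hy

theorem ab_part_prod (g : FreeGroup ℕ) : ∃ s₀ : Finset ℕ, ∀ s : Finset ℕ, s₀ ⊆ s →
    (Abelianization.of g : Abelianization (FreeGroup ℕ)) =
      ∏ n ∈ s, Abelianization.of (ab_part_eps n g) := by
  classical
  induction g using FreeGroup.induction_on with
  | C1 =>
    refine ⟨∅, fun s _ => ?_⟩
    simp
  | of m =>
    refine ⟨{m}, fun s hs => ?_⟩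
    have hm : m ∈ s := hs (Finset.mem_singleton_self m)
    rw [Finset.prod_eq_single_of_mem m hm]
    · unfold ab_part_eps
      rw [FreeGroup.lift_apply_of, if_pos rfl]
    · intro n _ hn
      unfold ab_part_eps
      rw [FreeGroup.lift_apply_of, if_neg (Ne.symm hn), map_one]
  | inv_of m h =>
    obtain ⟨s₀, h⟩ := h
    refine ⟨s₀, fun s hs => ?_⟩
    rw [map_inv, h s hs, ← Finset.prod_inv_distrib]
    refine Finset.prod_congr rfl fun n _ => ?_
    rw [map_inv, map_inv]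
  | mul x y hx hy =>
    obtain ⟨s₁, h1⟩ := hx
    obtain ⟨s₂, h2⟩ := hy
    refine ⟨s₁ ∪ s₂, fun s hs => ?_⟩
    rw [map_mul, h1 s (Finset.union_subset_left hs), h2 s (Finset.union_subset_right hs),
      ← Finset.prod_mul_distrib]
    refine Finset.prod_congr rfl fun n _ => ?_
    rw [map_mul, map_mul]

theorem ab_part (N₁ N₂ : Subgroup (FreeGroup ℕ)) (h₁ : FI N₁) (h₂ : FI N₂) (h : N₁ ≤ N₂)
    (hk : ∀ k : ℤ, FreeGroup.of 0 ^ k ∈ N₂ ⊔ D1 → (FreeGroup.of 0 : FreeGroup ℕ) ^ k ∈ N₁ ⊔ D1)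
    (hD : N₂ ⊓ D1 ≤ N₁) : N₂ ≤ N₁ := by
  intro g hg
  have hQ : FI (N₁ ⊔ D1) := ab_part_FI h₁
  have heps : ∀ n, ab_part_eps n g ∈ N₁ ⊔ D1 := by
    intro n
    obtain ⟨k, hk'⟩ := Subgroup.mem_zpowers_iff.mp (ab_part_eps_mem n g)
    have h3 : (FreeGroup.of n : FreeGroup ℕ) ^ k ∈ N₂ := by
      rw [hk']
      exact h₂ _ g hg
    have h4 := h₂ (FreeGroup.map (fun _ => 0)) _ h3
    rw [map_zpow, FreeGroup.map.of] at h4
    have h5 := hk k (Subgroup.mem_sup_left h4)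
    have h6 := hQ (FreeGroup.map (fun _ => n)) _ h5
    rw [map_zpow, FreeGroup.map.of] at h6
    rw [← hk']
    exact h6
  have hgQ : g ∈ N₁ ⊔ D1 := by
    obtain ⟨s₀, hs⟩ := ab_part_prod g
    have h3 : (Abelianization.of g : Abelianization (FreeGroup ℕ)) ∈
        (N₁ ⊔ D1).map Abelianization.of := by
      rw [hs s₀ (Finset.Subset.refl _)]
      exact Subgroup.prod_mem _ fun n _ => ⟨_, heps n, rfl⟩
    obtain ⟨q, hq, hqg⟩ := h3
    have h4 : q⁻¹ * g ∈ (commutator (FreeGroup ℕ)) := by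
      rw [← Abelianization.ker_of, MonoidHom.mem_ker, map_mul, map_inv, hqg, inv_mul_cancel]
    have h5 : q * (q⁻¹ * g) ∈ N₁ ⊔ D1 :=
      Subgroup.mul_mem _ hq (Subgroup.mem_sup_right h4)
    rwa [mul_inv_cancel_left] at h5
  obtain ⟨a, ha, c, hc, hac'⟩ := ab_part_mul hgQ
  have hc2 : c ∈ N₂ := by
    have : c = a⁻¹ * g := by rw [← hac', inv_mul_cancel_left]
    rw [this]
    exact Subgroup.mul_mem _ (Subgroup.inv_mem _ (h ha)) hg
  have hc1 : c ∈ N₁ := hD ⟨hc2, hc⟩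
  rw [← hac']
  exact Subgroup.mul_mem _ ha hc1

end Pool.Agent.Helper75.OH
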