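import Pool.Agent.Helper75.OH.Defs

set_option autoImplicit false

namespace Pool.Agent.Helper75.OH
open Ordinal
open scoped commutatorElement


theorem exists_order_wf : WellFounded (Finsupp.Lex (fun a b : ℕ => b < a) (fun a b : ℕ => a < b)) := by
  apply Finsupp.Lex.wellFounded (N := ℕ)
  · intro n
    exact Nat.not_lt_zero n
  · exact wellFounded_lt
  · have : (((fun a b : ℕ => b < a)ᶜ ⊓ (· ≠ ·)) : ℕ → ℕ → Prop) = fun a b : ℕ => a < b := by
      funext a b
      apply propext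
      simp only [Pi.inf_apply, Pi.compl_apply, compl_iff_not, inf_Prop_eq, ne_eq]
      omega
    rw [this]
    exact wellFounded_lt

theorem exists_order_trans {a b c : ℕ →₀ ℕ}
    (h1 : Finsupp.Lex (fun a b : ℕ => b < a) (fun a b : ℕ => a < b) a b)
    (h2 : Finsupp.Lex (fun a b : ℕ => b < a) (fun a b : ℕ => a < b) b c) :
    Finsupp.Lex (fun a b : ℕ => b < a) (fun a b : ℕ => a < b) a c := by
  obtain ⟨i, hi1, hi2⟩ := h1
  obtain ⟨k, hk1, hk2⟩ := h2
  rcases lt_trichotomy i k with h | h | h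
  · refine ⟨k, fun j hj => (hi1 j (lt_trans h hj)).trans (hk1 j hj), ?_⟩
    show a k < c k
    have e := hi1 k h
    change a k = b k at e
    change b k < c k at hk2
    omega
  · subst h
    refine ⟨i, fun j hj => (hi1 j hj).trans (hk1 j hj), ?_⟩
    show a i < c i
    change a i < b i at hi2
    change b i < c i at hk2
    omega
  · refine ⟨i, fun j hj => (hi1 j hj).trans (hk1 j (lt_trans h hj)), ?_⟩
    show a i < c i
    have e := hk1 i h
    change b i = c i at e
    change a i < b i at hi2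
    omega

theorem exists_order_total (a b : ℕ →₀ ℕ) :
    Finsupp.Lex (fun a b : ℕ => b < a) (fun a b : ℕ => a < b) a b ∨ a = b ∨
    Finsupp.Lex (fun a b : ℕ => b < a) (fun a b : ℕ => a < b) b a := by
  by_cases hab : a = b
  · exact Or.inr (Or.inl hab)
  · set D : Finset ℕ := (a.support ∪ b.support).filter (fun n => a n ≠ b n) with hD
    have hDm : ∀ n, a n ≠ b n → n ∈ D := by
      intro n hn
      rw [hD, Finset.mem_filter, Finset.mem_union, Finsupp.mem_support_iff, Finsupp.mem_support_iff]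
      refine ⟨?_, hn⟩
      by_contra hc
      push Not at hc
      exact hn (hc.1.trans hc.2.symm)
    have hne : D.Nonempty := by
      obtain ⟨n, hn⟩ := Finsupp.ne_iff.1 hab
      exact ⟨n, hDm n hn⟩
    have h1 : a (D.max' hne) ≠ b (D.max' hne) := (Finset.mem_filter.1 (D.max'_mem hne)).2
    have h2 : ∀ j, D.max' hne < j → a j = b j := by
      intro j hj
      by_contra hc
      exact absurd (D.le_max' j (hDm j hc)) (not_le.2 hj)
    rcases lt_or_gt_of_ne h1 with h | h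
    · exact Or.inl ⟨D.max' hne, fun j hj => h2 j hj, h⟩
    · exact Or.inr (Or.inr ⟨D.max' hne, fun j hj => (h2 j hj).symm, h⟩)

theorem exists_order_mono (σ : ℕ → ℕ) (hσ : StrictMono σ) (t : ℕ →₀ ℕ) {a b : ℕ →₀ ℕ}
    (h : Finsupp.Lex (fun a b : ℕ => b < a) (fun a b : ℕ => a < b) a b) :
    Finsupp.Lex (fun a b : ℕ => b < a) (fun a b : ℕ => a < b)
      (a.mapDomain σ + t) (b.mapDomain σ + t) := by
  obtain ⟨i, hi1, hi2⟩ := h
  change a i < b i at hi2
  refine ⟨σ i, fun m hm => ?_, ?_⟩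
  · show (a.mapDomain σ + t) m = (b.mapDomain σ + t) m
    rw [Finsupp.add_apply, Finsupp.add_apply]
    congr 1
    by_cases hr : m ∈ Set.range σ
    · obtain ⟨n, rfl⟩ := hr
      rw [Finsupp.mapDomain_apply hσ.injective, Finsupp.mapDomain_apply hσ.injective]
      exact hi1 n (hσ.lt_iff_lt.1 hm)
    · rw [Finsupp.mapDomain_of_notMem_range _ _ hr, Finsupp.mapDomain_of_notMem_range _ _ hr]
  · show (a.mapDomain σ + t) (σ i) < (b.mapDomain σ + t) (σ i)
    rw [Finsupp.add_apply, Finsupp.add_apply, Finsupp.mapDomain_apply hσ.injective,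
      Finsupp.mapDomain_apply hσ.injective]
    omega

theorem exists_order : ∃ lt : Mon → Mon → Prop, WellFounded lt ∧
    (∀ a b c, lt a b → lt b c → lt a c) ∧ (∀ a b, lt a b ∨ a = b ∨ lt b a) ∧
    (∀ σ : ℕ → ℕ, StrictMono σ → ∀ t a b, lt a b → lt (mv σ t a) (mv σ t b)) := by
  refine ⟨Prod.Lex (Finsupp.Lex (fun a b : ℕ => b < a) (fun a b : ℕ => a < b))
    (Prod.Lex (fun a b : ℕ => a < b) (fun a b : ℕ => a < b)), ?_, ?_, ?_, ?_⟩
  · exact WellFounded.prod_lex exists_order_wf (WellFounded.prod_lex wellFounded_lt wellFounded_lt)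
  · rintro ⟨a, i, j⟩ ⟨b, k, l⟩ ⟨c, m, n⟩ h1 h2
    rw [Prod.lex_iff] at h1 h2 ⊢
    simp only [Prod.lex_iff] at h1 h2 ⊢
    rcases h1 with h1 | ⟨rfl, h1⟩
    · rcases h2 with h2 | ⟨rfl, h2⟩
      · exact Or.inl (exists_order_trans h1 h2)
      · exact Or.inl h1
    · rcases h2 with h2 | ⟨rfl, h2⟩
      · exact Or.inl h2
      · exact Or.inr ⟨rfl, by omega⟩
  · rintro ⟨a, i, j⟩ ⟨b, k, l⟩
    simp only [Prod.lex_iff, Prod.mk.injEq]
    rcases exists_order_total a b with h | h | h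
    · exact Or.inl (Or.inl h)
    · subst h
      rcases lt_trichotomy i k with h1 | h1 | h1
      · exact Or.inl (Or.inr ⟨rfl, Or.inl h1⟩)
      · subst h1
        rcases lt_trichotomy j l with h2 | h2 | h2
        · exact Or.inl (Or.inr ⟨rfl, Or.inr ⟨rfl, h2⟩⟩)
        · exact Or.inr (Or.inl ⟨rfl, rfl, h2⟩)
        · exact Or.inr (Or.inr (Or.inr ⟨rfl, Or.inr ⟨rfl, h2⟩⟩))
      · exact Or.inr (Or.inr (Or.inr ⟨rfl, Or.inl h1⟩))
    · exact Or.inr (Or.inr (Or.inl h))
  · rintro σ hσ t ⟨a, i, j⟩ ⟨b, k, l⟩ h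
    unfold mv
    simp only [Prod.lex_iff] at h ⊢
    rcases h with h | ⟨rfl, h⟩
    · exact Or.inl (exists_order_mono σ hσ t h)
    · refine Or.inr ⟨rfl, ?_⟩
      rcases h with h | ⟨rfl, h⟩
      · exact Or.inl (hσ h)
      · exact Or.inr ⟨rfl, hσ h⟩

end Pool.Agent.Helper75.OH
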