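import Pool.Agent.Helper75.OH.Defs

set_option autoImplicit false

namespace Pool.Agent.Helper75.OH
open Ordinal
open scoped commutatorElement


/-- Subgroups with the same leading coefficients are equal. -/
theorem lead_eq {S : Type} (lt : S → S → Prop) (hwf : WellFounded lt)
    (htr : ∀ a b c, lt a b → lt b c → lt a c) (htot : ∀ a b, lt a b ∨ a = b ∨ lt b a)
    (I J : AddSubgroup (S →₀ ℤ)) (hIJ : I ≤ J)
    (h : ∀ s (c : ℤ), (∃ f ∈ J, f s = c ∧ ∀ s', lt s s' → f s' = 0) →
      ∃ f ∈ I, f s = c ∧ ∀ s', lt s s' → f s' = 0) : J ≤ I := by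
  classical
  have hirr : ∀ a, ¬ lt a a := by
    intro a
    induction a using hwf.induction with
    | _ a ih =>
      intro ha
      exact ih a ha ha
  have hmax : ∀ T : Finset S, T.Nonempty → ∃ r ∈ T, ∀ s' ∈ T, ¬ lt r s' := by
    intro T hT
    induction hT using Finset.Nonempty.cons_induction with
    | singleton a =>
      refine ⟨a, Finset.mem_singleton_self a, ?_⟩
      intro s' hs'
      rw [Finset.mem_singleton] at hs'
      rw [hs']
      exact hirr a
    | cons a T ha hT ih =>
      obtain ⟨r, hr, hr2⟩ := ih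
      by_cases hra : lt r a
      · refine ⟨a, Finset.mem_cons_self a T, ?_⟩
        intro s' hs'
        rw [Finset.mem_cons] at hs'
        rcases hs' with h1 | h1
        · rw [h1]
          exact hirr a
        · intro h2
          exact hr2 s' h1 (htr _ _ _ hra h2)
      · refine ⟨r, Finset.mem_cons.mpr (Or.inr hr), ?_⟩
        intro s' hs'
        rw [Finset.mem_cons] at hs'
        rcases hs' with h1 | h1
        · rw [h1]
          exact hra
        · exact hr2 s' h1
  have hlead : ∀ u : S →₀ ℤ, u ≠ 0 → ∃ r, u r ≠ 0 ∧ ∀ s', lt r s' → u s' = 0 := by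
    intro u hu
    obtain ⟨r, hr, hr2⟩ := hmax u.support (Finsupp.support_nonempty_iff.mpr hu)
    refine ⟨r, Finsupp.mem_support_iff.mp hr, ?_⟩
    intro s' hs'
    by_contra hne
    exact hr2 s' (Finsupp.mem_support_iff.mpr hne) hs'
  have key : ∀ s, ∀ f ∈ J, (∀ s', lt s s' → f s' = 0) → f ∈ I := by
    intro s
    induction s using hwf.induction with
    | _ s ih =>
      intro f hf hfs
      obtain ⟨g, hg, hgs, hg2⟩ := h s (f s) ⟨f, hf, rfl, hfs⟩
      have hu : f - g ∈ J := J.sub_mem hf (hIJ hg)
      have hfg : f = (f - g) + g := (sub_add_cancel f g).symm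
      by_cases h0 : f - g = 0
      · rw [hfg, h0, zero_add]
        exact hg
      · obtain ⟨r, hr, hr2⟩ := hlead (f - g) h0
        have hrs : lt r s := by
          rcases htot r s with h1 | h1 | h1
          · exact h1
          · exfalso
            apply hr
            rw [h1, Finsupp.sub_apply, hgs, _root_.sub_self]
          · exfalso
            apply hr
            rw [Finsupp.sub_apply, hfs r h1, hg2 r h1, _root_.sub_self]
        rw [hfg]
        exact I.add_mem (ih r hrs (f - g) hu hr2) hg
  intro f hf
  by_cases h0 : f = 0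
  · rw [h0]
    exact I.zero_mem
  · obtain ⟨r, _, hr2⟩ := hlead f h0
    exact key r f hf hr2

end Pool.Agent.Helper75.OH
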