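import Pool.Agent.Helper75.OH.Defs

set_option autoImplicit false

namespace Pool.Agent.Helper75.OH
open Ordinal
open scoped commutatorElement


/-- Families of subgroups of `ℤ` that are monotone along a well-quasi-order satisfy ACC. -/
theorem wqo_noeth {S : Type} (le : S → S → Prop) (hrefl : ∀ a, le a a)
    (htr : ∀ a b c, le a b → le b c → le a c)
    (hwqo : ∀ f : ℕ → S, ∃ i j, i < j ∧ le (f i) (f j))
    (F : ℕ → S → AddSubgroup ℤ) (hF : ∀ n s, F n s ≤ F (n + 1) s)
    (hmono : ∀ n a b, le a b → F n a ≤ F n b) : ∃ n, ∀ m, n ≤ m → ∀ s, F m s = F n s := by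
  have hFm : ∀ s, Monotone (fun n => F n s) := fun s => monotone_nat_of_le_succ (fun n => hF n s)
  by_contra hcon
  push Not at hcon
  have hstep : ∀ n, ∃ m, ∃ s, n < m ∧ F n s < F m s := by
    intro n
    obtain ⟨m, hm, s, hs⟩ := hcon n
    refine ⟨m, s, lt_of_le_of_ne hm ?_, lt_of_le_of_ne (hFm s hm) (Ne.symm hs)⟩
    rintro rfl
    exact hs rfl
  choose mm ss hmm hss using hstep
  let nn : ℕ → ℕ := fun k => Nat.rec 0 (fun _ x => mm x) k
  have hnn : ∀ k, nn (k + 1) = mm (nn k) := fun k => rfl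
  have hnm : StrictMono nn := strictMono_nat_of_lt_succ (fun k => by rw [hnn]; exact hmm _)
  let f : ℕ → S := fun k => ss (nn k)
  have htrans : IsTrans S le := ⟨htr⟩
  obtain ⟨g, hg⟩ := exists_increasing_or_nonincreasing_subseq le f
  rcases hg with hg | hg
  · let G : ℕ → AddSubgroup ℤ := fun i => F (nn (g i)) (f (g i))
    have hG : StrictMono G := by
      refine strictMono_nat_of_lt_succ (fun i => ?_)
      have h1 : F (nn (g i)) (f (g i)) < F (nn (g i + 1)) (f (g i)) := by
        rw [hnn]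
        exact hss (nn (g i))
      have h2 : g i + 1 ≤ g (i + 1) := g.strictMono (Nat.lt_succ_self i)
      have h3 : F (nn (g i + 1)) (f (g i)) ≤ F (nn (g (i + 1))) (f (g i)) :=
        hFm _ (hnm.monotone h2)
      have h4 : F (nn (g (i + 1))) (f (g i)) ≤ F (nn (g (i + 1))) (f (g (i + 1))) :=
        hmono _ _ _ (hg i (i + 1) (Nat.lt_succ_self i))
      exact lt_of_lt_of_le h1 (h3.trans h4)
    have hG' : StrictMono (fun i => AddSubgroup.toIntSubmodule (G i)) :=
      fun i j hij => (AddSubgroup.toIntSubmodule (M := ℤ)).strictMono (hG hij)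
    exact not_strictMono_of_wellFoundedGT _ hG'
  · obtain ⟨i, j, hij, hle⟩ := hwqo (fun k => f (g k))
    exact hg i j hij hle

end Pool.Agent.Helper75.OH
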