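import Pool.Agent.Helper75.OH.Defs
import Pool.Agent.Helper75.OH.P_lead_eq
import Pool.Agent.Helper75.OH.P_wqo_noeth

set_option autoImplicit false

namespace Pool.Agent.Helper75.OH
open Ordinal
open scoped commutatorElement


theorem groebner {S : Type} (lt : S → S → Prop) (hwf : WellFounded lt)
    (htr : ∀ a b c, lt a b → lt b c → lt a c) (htot : ∀ a b, lt a b ∨ a = b ∨ lt b a)
    (T : Set (S → S)) (hid : id ∈ T) (hcomp : ∀ τ ∈ T, ∀ τ' ∈ T, τ ∘ τ' ∈ T)
    (hmono : ∀ τ ∈ T, ∀ a b, lt a b → lt (τ a) (τ b))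
    (hwqo : ∀ f : ℕ → S, ∃ i j, i < j ∧ ∃ τ ∈ T, τ (f i) = f j)
    (I : ℕ → AddSubgroup (S →₀ ℤ)) (hI : ∀ n, I n ≤ I (n + 1))
    (hT : ∀ n, ∀ τ ∈ T, ∀ f ∈ I n, f.mapDomain τ ∈ I n) : ∃ n, ∀ m, n ≤ m → I m = I n := by
  have hirr : ∀ a, ¬ lt a a := fun a h => hwf.isIrrefl.irrefl a h
  have hinj : ∀ τ ∈ T, Function.Injective τ := by
    intro τ hτ a b hab
    rcases htot a b with h | h | h
    · exact absurd (hab ▸ hmono τ hτ a b h) (hirr _)
    · exact h
    · exact absurd (hab ▸ hmono τ hτ b a h) (hirr _)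
  let F : ℕ → S → AddSubgroup ℤ := fun n s =>
    { carrier := {c | ∃ f ∈ I n, f s = c ∧ ∀ s', lt s s' → f s' = 0}
      zero_mem' := ⟨0, (I n).zero_mem, by simp, by simp⟩
      add_mem' := by
        rintro a b ⟨f, hf, rfl, hf0⟩ ⟨g, hg, rfl, hg0⟩
        exact ⟨f + g, (I n).add_mem hf hg, by simp, fun s' hs' => by simp [hf0 s' hs', hg0 s' hs']⟩
      neg_mem' := by
        rintro a ⟨f, hf, rfl, hf0⟩
        exact ⟨-f, (I n).neg_mem hf, by simp, fun s' hs' => by simp [hf0 s' hs']⟩ }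
  have hFmem : ∀ n s c, c ∈ F n s ↔ ∃ f ∈ I n, f s = c ∧ ∀ s', lt s s' → f s' = 0 :=
    fun n s c => Iff.rfl
  obtain ⟨n, hn⟩ := wqo_noeth (fun a b => ∃ τ ∈ T, τ a = b) (fun a => ⟨id, hid, rfl⟩)
    (by
      rintro a b c ⟨τ, hτ, rfl⟩ ⟨τ', hτ', rfl⟩
      exact ⟨τ' ∘ τ, hcomp τ' hτ' τ hτ, rfl⟩)
    hwqo F
    (by
      intro n s c hc
      obtain ⟨f, hf, h1, h2⟩ := (hFmem n s c).1 hc
      exact (hFmem (n+1) s c).2 ⟨f, hI n hf, h1, h2⟩)
    (by
      rintro n a b ⟨τ, hτ, rfl⟩ c hc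
      obtain ⟨f, hf, h1, h2⟩ := (hFmem n a c).1 hc
      refine (hFmem n _ c).2 ⟨f.mapDomain τ, hT n τ hτ f hf, ?_, ?_⟩
      · rw [Finsupp.mapDomain_apply (hinj τ hτ)]; exact h1
      · intro s' hs'
        by_cases hr : s' ∈ Set.range τ
        · obtain ⟨x, rfl⟩ := hr
          rw [Finsupp.mapDomain_apply (hinj τ hτ)]
          apply h2
          rcases htot a x with h | h | h
          · exact h
          · subst h; exact absurd hs' (hirr _)
          · exact absurd (htr _ _ _ hs' (hmono τ hτ x a h)) (hirr _)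
        · exact Finsupp.mapDomain_notin_range _ _ hr)
  have hle : ∀ m, n ≤ m → I n ≤ I m := by
    intro m hm
    induction m, hm using Nat.le_induction with
    | base => exact le_refl _
    | succ m hm ih => exact le_trans ih (hI m)
  refine ⟨n, fun m hm => le_antisymm ?_ (hle m hm)⟩
  refine lead_eq lt hwf htr htot (I n) (I m) (hle m hm) ?_
  intro s c hc
  have h1 : c ∈ F m s := (hFmem m s c).2 hc
  rw [hn m hm s] at h1
  exact (hFmem n s c).1 h1

end Pool.Agent.Helper75.OH
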