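import Pool.Agent.Helper75.OH.Defs

set_option autoImplicit false

namespace Pool.Agent.Helper75.OH
open Ordinal
open scoped commutatorElement


theorem mv_comp (σ τ : ℕ → ℕ) (t u : ℕ →₀ ℕ) (s : Mon) :
    mv σ t (mv τ u s) = mv (σ ∘ τ) (u.mapDomain σ + t) s := by
  unfold mv
  refine Prod.ext ?_ rfl
  show (s.1.mapDomain τ + u).mapDomain σ + t = s.1.mapDomain (σ ∘ τ) + (u.mapDomain σ + t)
  rw [Finsupp.mapDomain_add, Finsupp.mapDomain_comp, add_assoc]

end Pool.Agent.Helper75.OH
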