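import Pool.Agent.Helper75.OH.Defs

set_option autoImplicit false

namespace Pool.Agent.Helper75.OH
open Ordinal
open scoped commutatorElement


/-- The order on letters. -/
def LR (a b : ℕ × (Bool × Bool)) : Prop := a.1 ≤ b.1 ∧ a.2 = b.2

instance LR_pre : IsPreorder (ℕ × (Bool × Bool)) LR where
  refl := fun _ => ⟨le_refl _, rfl⟩
  trans := fun _ _ _ h1 h2 => ⟨h1.1.trans h2.1, h1.2.trans h2.2⟩

theorem LR_wqo : WellQuasiOrdered LR := by
  have h1 : WellQuasiOrdered (α := ℕ) (· ≤ ·) := wellQuasiOrdered_le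
  have h2 : WellQuasiOrdered (α := Bool × Bool) (· = ·) := Finite.wellQuasiOrdered _
  exact h1.prod h2

/-- The bound of a monomial. -/
noncomputable def bd (s : Mon) : ℕ := s.1.support.sup id + s.2.1 + s.2.2 + 1

/-- The code of a monomial. -/
noncomputable def cd (s : Mon) : List (ℕ × (Bool × Bool)) :=
  (List.range (bd s)).map (fun n => (s.1 n, decide (n = s.2.1), decide (n = s.2.2)))

theorem cd_get (s : Mon) (n : ℕ) (hn : n < bd s) :
    (cd s)[n]? = some (s.1 n, decide (n = s.2.1), decide (n = s.2.2)) := by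
  unfold cd
  rw [List.getElem?_map, List.getElem?_range hn]
  rfl

theorem cd_get_none (s : Mon) (n : ℕ) (hn : bd s ≤ n) : (cd s)[n]? = none := by
  apply List.getElem?_eq_none
  unfold cd
  simpa using hn

theorem wqo (f : ℕ → Mon) : ∃ i j, i < j ∧ ∃ σ : ℕ → ℕ, StrictMono σ ∧
    ∃ t, mv σ t (f i) = f j := by
  have hH := Set.PartiallyWellOrderedOn.partiallyWellOrderedOn_sublistForall₂ LR
    (Set.partiallyWellOrderedOn_univ_iff.mpr LR_wqo)
  obtain ⟨i, j, hij, hsub⟩ := hH (fun n => ⟨cd (f n), fun x _ => Set.mem_univ x⟩)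
  refine ⟨i, j, hij, ?_⟩
  have hsub : List.SublistForall₂ LR (cd (f i)) (cd (f j)) := hsub
  rw [List.sublistForall₂_iff] at hsub
  obtain ⟨l, hl, hsl⟩ := hsub
  obtain ⟨g, hg⟩ := List.sublist_iff_exists_orderEmbedding_getElem?_eq.mp hsl
  have key : ∀ n, n < bd (f i) → (f i).1 n ≤ (f j).1 (g n) ∧ (n = (f i).2.1 ↔ g n = (f j).2.1) ∧
      (n = (f i).2.2 ↔ g n = (f j).2.2) := by
    intro n hn
    have h1 := cd_get (f i) n hn
    have hlen : n < (cd (f i)).length := by simpa [cd] using hn
    have hlen2 : n < l.length := by rw [← hl.length_eq]; exact hlen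
    have h2 : LR ((cd (f i))[n]) (l[n]) := (List.forall₂_iff_get.mp hl).2 n hlen hlen2
    have h3 : l[n]? = (cd (f j))[g n]? := hg n
    have h4 : g n < bd (f j) := by
      by_contra hcon
      rw [cd_get_none _ _ (not_lt.mp hcon), List.getElem?_eq_getElem hlen2] at h3
      simp at h3
    rw [cd_get _ _ h4, List.getElem?_eq_getElem hlen2] at h3
    rw [List.getElem?_eq_getElem hlen] at h1
    rw [Option.some.injEq] at h1 h3
    rw [h1, h3] at h2
    obtain ⟨h5, h6⟩ := h2
    simp only [Prod.mk.injEq, decide_eq_decide] at h5 h6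
    exact ⟨h5, h6.1, h6.2⟩
  have hi1 : (f i).2.1 < bd (f i) := by unfold bd; omega
  have hi2 : (f i).2.2 < bd (f i) := by unfold bd; omega
  refine ⟨g, g.strictMono, (f j).1 - (f i).1.mapDomain g, ?_⟩
  have hle : (f i).1.mapDomain g ≤ (f j).1 := by
    intro m
    by_cases hm : m ∈ Set.range g
    · obtain ⟨n, rfl⟩ := hm
      rw [Finsupp.mapDomain_apply g.injective]
      by_cases hn : n < bd (f i)
      · exact (key n hn).1
      · have : (f i).1 n = 0 := by
          by_contra h0
          have hs : n ∈ (f i).1.support := Finsupp.mem_support_iff.mpr h0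
          have := Finset.le_sup (f := id) hs
          simp only [id] at this
          unfold bd at hn
          omega
        rw [this]; exact Nat.zero_le _
    · rw [Finsupp.mapDomain_of_notMem_range _ _ hm]; exact Nat.zero_le _
  unfold mv
  refine Prod.ext ?_ (Prod.ext ?_ ?_)
  · exact add_tsub_cancel_of_le hle
  · exact ((key _ hi1).2.1).mp rfl
  · exact ((key _ hi2).2.2).mp rfl

end Pool.Agent.Helper75.OH
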