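import Pool.Agent.Helper75.OH.Defs
import Pool.Agent.Helper75.OH.P_wqo
import Pool.Agent.Helper75.OH.P_exists_order
import Pool.Agent.Helper75.OH.P_mv_comp
import Pool.Agent.Helper75.OH.P_groebner

set_option autoImplicit false

namespace Pool.Agent.Helper75.OH
open Ordinal
open scoped commutatorElement


theorem cohen (I : ℕ → AddSubgroup (Mon →₀ ℤ)) (hI : ∀ n, I n ≤ I (n + 1))
    (hT : ∀ n, ∀ σ : ℕ → ℕ, StrictMono σ → ∀ t, ∀ f ∈ I n, f.mapDomain (mv σ t) ∈ I n) :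
    ∃ n, ∀ m, n ≤ m → I m = I n := by
  obtain ⟨lt, hwf, htr, htot, hmono⟩ := exists_order
  refine groebner lt hwf htr htot {τ | ∃ σ : ℕ → ℕ, StrictMono σ ∧ ∃ t, τ = mv σ t}
    ?_ ?_ ?_ ?_ I hI ?_
  · refine ⟨id, strictMono_id, 0, ?_⟩
    funext s
    simp [mv]
  · rintro _ ⟨σ, hσ, t, rfl⟩ _ ⟨σ', hσ', t', rfl⟩
    exact ⟨σ ∘ σ', hσ.comp hσ', t'.mapDomain σ + t, funext fun s => mv_comp σ σ' t t' s⟩
  · rintro _ ⟨σ, hσ, t, rfl⟩ a b h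
    exact hmono σ hσ t a b h
  · intro f
    obtain ⟨i, j, hij, σ, hσ, t, h⟩ := wqo f
    exact ⟨i, j, hij, _, ⟨σ, hσ, t, rfl⟩, h⟩
  · rintro n _ ⟨σ, hσ, t, rfl⟩ f hf
    exact hT n σ hσ t f hf

end Pool.Agent.Helper75.OH
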