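import Pool.Agent.Helper75.OH.Defs
import Pool.Agent.Helper75.OH.P_conj_ab
import Pool.Agent.Helper75.OH.P_ab_ww
import Pool.Agent.Helper75.OH.P_Ph_move

set_option autoImplicit false

namespace Pool.Agent.Helper75.OH
open Ordinal
open scoped commutatorElement


/-- class of the conjugate of `x` by `w` -/
noncomputable def cjc (w : FreeGroup ℕ) (x : ↥D1) : Additive (Abelianization ↥D1) :=
  Additive.ofMul (Abelianization.of (⟨w⁻¹ * x * w, conj_mem_D1 x.2 w⟩ : ↥D1))

theorem cjc_mul (w : FreeGroup ℕ) (x y : ↥D1) : cjc w (x * y) = cjc w x + cjc w y := by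
  unfold cjc
  rw [← ofMul_mul, ← map_mul]
  congr 2
  apply Subtype.ext
  simp [mul_assoc]

theorem cjc_one (w : FreeGroup ℕ) : cjc w 1 = 0 := by
  have h := cjc_mul w 1 1
  rw [mul_one] at h
  exact left_eq_add.mp h

theorem cjc_inv (w : FreeGroup ℕ) (x : ↥D1) : cjc w x⁻¹ = - cjc w x := by
  have h := cjc_mul w x⁻¹ x
  rw [inv_mul_cancel, cjc_one] at h
  exact eq_neg_of_add_eq_zero_left h.symm

theorem cjc_conj (w w' : FreeGroup ℕ) (x : ↥D1) :
    cjc w' ⟨w⁻¹ * x * w, conj_mem_D1 x.2 w⟩ = cjc (w * w') x := by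
  unfold cjc
  congr 2
  apply Subtype.ext
  simp [mul_assoc]

theorem cjc_ab (w w' : FreeGroup ℕ) (x : ↥D1) (h : Abelianization.of w = Abelianization.of w') :
    cjc w x = cjc w' x := by
  unfold cjc
  rw [conj_ab x w w' h]

theorem ab_ww_add (t u : ℕ →₀ ℕ) :
    Abelianization.of (ww t * ww u) = Abelianization.of (ww (t + u)) := by
  rw [map_mul, ab_ww, ab_ww, ab_ww, Finsupp.prod_add_index']
  · intro a; simp
  · intro a b c; exact pow_add _ _ _

theorem ab_ww_single (n : ℕ) :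
    Abelianization.of (ww (Finsupp.single n 1)) = Abelianization.of (FreeGroup.of n) := by
  rw [ab_ww, Finsupp.prod_single_index] <;> simp

theorem gen_shift (t u : ℕ →₀ ℕ) (f : Mon →₀ ℤ) (x : ↥D1) (h : Ph f = cjc (ww t) x) :
    Ph (f.mapDomain (mv id u)) = cjc (ww (t + u)) x := by
  have h1 := Ph_move id u f _ h Function.injective_id
  rw [h1, ← cjc_ab _ _ x (ab_ww_add t u), ← cjc_conj]
  unfold cjc
  congr 2
  apply Subtype.ext
  have h2 : (FreeGroup.lift fun n => FreeGroup.of (id n)) = MonoidHom.id (FreeGroup ℕ) := by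
    ext n; simp
  show (ww u)⁻¹ * (FreeGroup.lift fun n => FreeGroup.of (id n)) ((ww t)⁻¹ * (x : FreeGroup ℕ) * ww t) * ww u = _
  rw [h2]
  simp

/-- The claim for a word. -/
def GenP (x : FreeGroup ℕ) : Prop :=
  ∃ hx : x ∈ D1, ∃ (t : ℕ →₀ ℕ) (f : Mon →₀ ℤ), Ph f = cjc (ww t) ⟨x, hx⟩

theorem GenP.one : GenP 1 :=
  ⟨D1.one_mem, 0, 0, by
    rw [map_zero]; exact (cjc_one _).symm⟩

theorem GenP.mul {x y : FreeGroup ℕ} (hx : GenP x) (hy : GenP y) : GenP (x * y) := by
  obtain ⟨hx, t, f, hf⟩ := hx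
  obtain ⟨hy, u, g, hg⟩ := hy
  refine ⟨D1.mul_mem hx hy, t + u, f.mapDomain (mv id u) + g.mapDomain (mv id t), ?_⟩
  rw [map_add, gen_shift t u f _ hf, gen_shift u t g _ hg, add_comm u t, ← cjc_mul]
  rfl

theorem GenP.inv {x : FreeGroup ℕ} (hx : GenP x) : GenP x⁻¹ := by
  obtain ⟨hx, t, f, hf⟩ := hx
  refine ⟨D1.inv_mem hx, t, -f, ?_⟩
  rw [map_neg, hf, ← cjc_inv]
  rfl

theorem GenP.base (i j : ℕ) : GenP ⁅FreeGroup.of i, FreeGroup.of j⁆ := by
  refine ⟨comm_mem_D1 _ _, 0, Finsupp.single (0, i, j) 1, ?_⟩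
  unfold Ph
  rw [Finsupp.liftAddHom_apply_single]
  simp
  rfl

theorem GenP.conj_inv {x : FreeGroup ℕ} (n : ℕ) (hx : GenP x) :
    GenP ((FreeGroup.of n)⁻¹ * x * FreeGroup.of n) := by
  obtain ⟨hx, t, f, hf⟩ := hx
  refine ⟨conj_mem_D1 hx _, t, f.mapDomain (mv id (Finsupp.single n 1)), ?_⟩
  rw [gen_shift t _ f _ hf]
  have h := cjc_conj (FreeGroup.of n) (ww t) ⟨x, hx⟩
  rw [h]
  apply cjc_ab
  rw [← ab_ww_add, map_mul, map_mul, ab_ww_single, mul_comm]

theorem GenP.conj {x : FreeGroup ℕ} (n : ℕ) (hx : GenP x) :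
    GenP (FreeGroup.of n * x * (FreeGroup.of n)⁻¹) := by
  obtain ⟨hx, t, f, hf⟩ := hx
  have hm : FreeGroup.of n * x * (FreeGroup.of n)⁻¹ ∈ D1 := by
    have := conj_mem_D1 hx (FreeGroup.of n)⁻¹
    rwa [inv_inv] at this
  refine ⟨hm, t + Finsupp.single n 1, f, ?_⟩
  rw [hf]
  have h := cjc_conj (FreeGroup.of n)⁻¹ (ww (t + Finsupp.single n 1)) ⟨x, hx⟩
  have h2 : (⟨FreeGroup.of n * x * (FreeGroup.of n)⁻¹, hm⟩ : ↥D1) =
      ⟨((FreeGroup.of n)⁻¹)⁻¹ * x * (FreeGroup.of n)⁻¹, conj_mem_D1 hx (FreeGroup.of n)⁻¹⟩ := by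
    apply Subtype.ext; simp
  rw [h2, h]
  apply cjc_ab
  rw [map_mul, ← ab_ww_add, map_mul, ab_ww_single, map_inv, mul_comm (Abelianization.of (ww t)),
    inv_mul_cancel_left]

/-- The subgroup of good words. -/
def GenK : Subgroup (FreeGroup ℕ) where
  carrier := {x | GenP x}
  one_mem' := GenP.one
  mul_mem' := fun hx hy => GenP.mul hx hy
  inv_mem' := fun hx => GenP.inv hx

theorem GenK_mem {x : FreeGroup ℕ} : x ∈ GenK ↔ GenP x := Iff.rfl

theorem GenK_normal : GenK.Normal := by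
  have key : ∀ g : FreeGroup ℕ, ∀ x, GenP x → GenP (g * x * g⁻¹) ∧ GenP (g⁻¹ * x * g) := by
    intro g
    induction g using FreeGroup.induction_on with
    | C1 => intro x hx; simpa using hx
    | of n => intro x hx; exact ⟨hx.conj n, hx.conj_inv n⟩
    | inv_of n ih =>
      intro x hx
      have h := ih x hx
      rw [inv_inv]
      exact ⟨h.2, h.1⟩
    | mul g h ihg ihh =>
      intro x hx
      constructor
      · have := (ihg _ (ihh x hx).1).1
        simpa [mul_assoc] using this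
      · have := (ihh _ (ihg x hx).2).2
        simpa [mul_assoc] using this
  exact ⟨fun x hx g => (key g x hx).1⟩

theorem D1_le_GenK : D1 ≤ GenK := by
  have := GenK_normal
  have h1 : ∀ i j : ℕ, Commute (QuotientGroup.mk' GenK (FreeGroup.of i))
      (QuotientGroup.mk' GenK (FreeGroup.of j)) := by
    intro i j
    have h : QuotientGroup.mk' GenK ⁅FreeGroup.of i, FreeGroup.of j⁆ = 1 := by
      rw [QuotientGroup.mk'_apply, QuotientGroup.eq_one_iff]
      exact GenP.base i j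
    rw [map_commutatorElement, commutatorElement_eq_one_iff_commute] at h
    exact h
  have h2 : ∀ (i : ℕ) (y : FreeGroup ℕ), Commute (QuotientGroup.mk' GenK (FreeGroup.of i))
      (QuotientGroup.mk' GenK y) := by
    intro i y
    induction y using FreeGroup.induction_on with
    | C1 => rw [map_one]; exact Commute.one_right _
    | of n => exact h1 i n
    | inv_of n ih => rw [map_inv]; exact ih.inv_right
    | mul g h ihg ihh => rw [map_mul]; exact ihg.mul_right ihh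
  have h3 : ∀ (x y : FreeGroup ℕ), Commute (QuotientGroup.mk' GenK x)
      (QuotientGroup.mk' GenK y) := by
    intro x y
    induction x using FreeGroup.induction_on with
    | C1 => rw [map_one]; exact Commute.one_left _
    | of n => exact h2 n y
    | inv_of n ih => rw [map_inv]; exact ih.inv_left
    | mul g h ihg ihh => rw [map_mul]; exact ihg.mul_left ihh
  rw [D1, commutator_def, Subgroup.commutator_le]
  intro x _ y _
  have h : QuotientGroup.mk' GenK ⁅x, y⁆ = 1 := by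
    rw [map_commutatorElement, commutatorElement_eq_one_iff_commute]
    exact h3 x y
  rw [QuotientGroup.mk'_apply, QuotientGroup.eq_one_iff] at h
  exact h

theorem gen (x : ↥D1) : ∃ (t : ℕ →₀ ℕ) (f : Mon →₀ ℤ), Ph f = Additive.ofMul
    (Abelianization.of (⟨(ww t)⁻¹ * x * ww t, conj_mem_D1 x.2 _⟩ : ↥D1)) := by
  obtain ⟨hx, t, f, hf⟩ := GenK_mem.mp (D1_le_GenK x.2)
  exact ⟨t, f, hf⟩

end Pool.Agent.Helper75.OH
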