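import Pool.Agent.Helper75.OH.Defs
import Pool.Agent.Helper75.OH.P_cohen
import Pool.Agent.Helper75.OH.P_IN_iff
import Pool.Agent.Helper75.OH.P_IN_move
import Pool.Agent.Helper75.OH.P_gen
import Pool.Agent.Helper75.OH.P_ab_part

set_option autoImplicit false

namespace Pool.Agent.Helper75.OH
open Ordinal
open scoped commutatorElement


theorem acc_D2 (N : ℕ → Subgroup (FreeGroup ℕ)) (hN : ∀ n, FI (N n) ∧ D2 ≤ N n)
    (hmono : ∀ n, N n ≤ N (n + 1)) : ∃ n, N (n + 1) = N n := by
  classical
  have hmon : Monotone N := monotone_nat_of_le_succ hmono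
  -- the chain of formal sums
  obtain ⟨n0, hn0⟩ := cohen (fun n => IN (N n))
    (fun n => by
      intro f hf
      obtain ⟨x, hx⟩ := QuotientGroup.mk_surjective (s := commutator ↥D1)
        (Additive.toMul (Ph f))
      have hx' : Ph f = Additive.ofMul (Abelianization.of x) := by
        apply Additive.toMul.injective
        exact hx.symm
      rw [IN_iff (N (n + 1)) (hN _).2 f x hx']
      rw [IN_iff (N n) (hN _).2 f x hx'] at hf
      exact hmono n hf)
    (fun n σ hσ t f hf => IN_move (N n) (hN n).1 (hN n).2 σ hσ t f hf)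
  -- the chain of exponents
  let K : ℕ → Submodule ℤ ℤ := fun n =>
    { carrier := {k : ℤ | (FreeGroup.of 0 : FreeGroup ℕ) ^ k ∈ N n ⊔ D1}
      add_mem' := by
        intro a b ha hb
        simp only [Set.mem_setOf_eq] at ha hb ⊢
        rw [zpow_add]
        exact mul_mem ha hb
      zero_mem' := by
        simp only [Set.mem_setOf_eq, zpow_zero]
        exact one_mem _
      smul_mem' := by
        intro c a ha
        simp only [Set.mem_setOf_eq] at ha ⊢
        have e : c • a = a * c := by rw [zsmul_eq_mul, mul_comm]; simp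
        rw [e, zpow_mul]
        exact zpow_mem ha c }
  have hKmem : ∀ n (k : ℤ), k ∈ K n ↔ (FreeGroup.of 0 : FreeGroup ℕ) ^ k ∈ N n ⊔ D1 :=
    fun n k => Iff.rfl
  have hKmono : Monotone K := by
    intro a b hab k hk
    rw [hKmem] at hk ⊢
    exact (sup_le_sup_right (hmon hab) D1) hk
  obtain ⟨n1, hn1⟩ := monotone_stabilizes_iff_noetherian.mpr
    (inferInstance : IsNoetherian ℤ ℤ) ⟨K, hKmono⟩
  refine ⟨max n0 n1, le_antisymm ?_ (hmono _)⟩
  set n := max n0 n1 with hn
  have hI : IN (N (n + 1)) = IN (N n) := by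
    rw [hn0 (n + 1) (by omega), hn0 n (by omega)]
  have hKe : K (n + 1) = K n := by
    have h1 : K n1 = K (n + 1) := hn1 (n + 1) (by omega)
    have h2 : K n1 = K n := hn1 n (by omega)
    rw [← h1, ← h2]
  refine ab_part (N n) (N (n + 1)) (hN _).1 (hN _).1 (hmono _) ?_ ?_
  · intro k hk
    rw [← hKmem] at hk ⊢
    rwa [← hKe]
  · intro x hx
    obtain ⟨hxN, hxD⟩ := Subgroup.mem_inf.mp hx
    obtain ⟨t, f, hf⟩ := gen ⟨x, hxD⟩
    have hc : (ww t)⁻¹ * x * ww t ∈ N (n + 1) := by
      have := (hN (n + 1)).1 (MulAut.conj (ww t)⁻¹).toMonoidHom x hxN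
      simpa [MulAut.conj_apply] using this
    have h1 : f ∈ IN (N (n + 1)) := by
      rw [IN_iff (N (n + 1)) (hN _).2 f _ hf]
      exact hc
    rw [hI, IN_iff (N n) (hN _).2 f _ hf] at h1
    have h2 := (hN n).1 (MulAut.conj (ww t)).toMonoidHom _ h1
    have h3 : (MulAut.conj (ww t)).toMonoidHom ((ww t)⁻¹ * x * ww t) = x := by
      simp [MulAut.conj_apply, mul_assoc]
    rwa [h3] at h2

end Pool.Agent.Helper75.OH
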