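import Pool.Agent.Helper75.OH.Defs

set_option autoImplicit false

namespace Pool.Agent.Helper75.OH
open Ordinal
open scoped commutatorElement


theorem chain_dichotomy {X : Type} [PartialOrder X] (S : Set X) (hc : IsChain (· ≤ ·) S)
    (hw : ∀ T ⊆ S, T.Nonempty → ∃ M ∈ T, ∀ M' ∈ T, M' ≤ M) (α : Ordinal.{0}) :
    (∃ f : X → Ordinal.{0}, (∀ A ∈ S, f A < α) ∧ ∀ A ∈ S, ∀ B ∈ S, B < A → f A < f B) ∨
    (∃ A ∈ S, ∃ g : Ordinal.{0} → X, (∀ γ < α, g γ ∈ S ∧ A < g γ) ∧
      ∀ γ δ : Ordinal.{0}, γ < δ → δ < α → g δ < g γ) := by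
  classical
  let r : S → S → Prop := fun A B => B.1 < A.1
  have hwf : WellFounded r := by
    rw [WellFounded.wellFounded_iff_has_min]
    intro T hT
    obtain ⟨M, hM, hmax⟩ := hw ((fun x : S => x.1) '' T)
      (by rintro _ ⟨x, -, rfl⟩; exact x.2) (hT.image _)
    obtain ⟨m, hm, rfl⟩ := hM
    refine ⟨m, hm, ?_⟩
    intro x hx hr
    have h1 := hmax x.1 ⟨x, hx, rfl⟩
    exact absurd hr (not_lt_of_ge h1)
  haveI : IsWellFounded S r := ⟨hwf⟩
  haveI : Std.Trichotomous r := ⟨by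
    intro a b h1 h2
    apply Subtype.ext
    by_contra hne
    rcases hc a.2 b.2 hne with h | h
    · exact h2 (lt_of_le_of_ne h hne)
    · exact h1 (lt_of_le_of_ne h (Ne.symm hne))⟩
  haveI : IsWellOrder S r := IsWellOrder.mk
  by_cases hcase : ∃ A : S, α ≤ Ordinal.typein r A
  · right
    obtain ⟨A, hA⟩ := hcase
    have hlt : ∀ γ : Ordinal.{0}, γ < α → γ < Ordinal.type r := fun γ h =>
      (h.trans_le hA).trans (Ordinal.typein_lt_type r A)
    refine ⟨A.1, A.2, fun γ => if h : γ < α then (Ordinal.enum r ⟨γ, hlt γ h⟩).1 else A.1, ?_, ?_⟩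
    · intro γ hγ
      simp only [dif_pos hγ]
      refine ⟨Subtype.coe_prop _, ?_⟩
      have h1 : Ordinal.typein r (Ordinal.enum r ⟨γ, hlt γ hγ⟩) < Ordinal.typein r A := by
        rw [Ordinal.typein_enum]
        exact hγ.trans_le hA
      exact (Ordinal.typein_lt_typein r).1 h1
    · intro γ δ hγδ hδ
      have hγ : γ < α := hγδ.trans hδ
      simp only [dif_pos hγ, dif_pos hδ]
      have h1 : Ordinal.typein r (Ordinal.enum r ⟨γ, hlt γ hγ⟩) <
          Ordinal.typein r (Ordinal.enum r ⟨δ, hlt δ hδ⟩) := by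
        rw [Ordinal.typein_enum, Ordinal.typein_enum]
        exact hγδ
      exact (Ordinal.typein_lt_typein r).1 h1
  · left
    push Not at hcase
    refine ⟨fun x => if h : x ∈ S then Ordinal.typein r ⟨x, h⟩ else 0, ?_, ?_⟩
    · intro A hA
      simp only [dif_pos hA]
      exact hcase ⟨A, hA⟩
    · intro A hA B hB hBA
      simp only [dif_pos hA, dif_pos hB]
      exact (Ordinal.typein_lt_typein r).2 hBA

end Pool.Agent.Helper75.OH
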