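import Pool.Agent.Helper75.OH.Defs

set_option autoImplicit false

namespace Pool.Agent.Helper75.OH
open Ordinal
open scoped commutatorElement


/-- natural number of an ordinal below omega -/
noncomputable def nn (o : Ordinal.{0}) : ℕ :=
  if h : o < ω then Classical.choose (Ordinal.lt_omega0.1 h) else 0

theorem nn_spec {o : Ordinal.{0}} (h : o < ω) : ((nn o : ℕ) : Ordinal.{0}) = o := by
  unfold nn
  rw [dif_pos h]
  exact (Classical.choose_spec (Ordinal.lt_omega0.1 h)).symm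

theorem nn_lt {o o' : Ordinal.{0}} (h : o < o') (h' : o' < ω) : nn o < nn o' := by
  have h1 := nn_spec (h.trans h')
  have h2 := nn_spec h'
  rw [← h1, ← h2] at h
  exact_mod_cast h

theorem nn_zero : nn 0 = 0 := by
  have h := nn_spec (Ordinal.omega0_pos)
  exact_mod_cast h

theorem div_div_om {a b c : Ordinal.{0}} (hb : b ≠ 0) (hc : c ≠ 0) : a / b / c = a / (b * c) := by
  apply eq_of_forall_le_iff
  intro d
  rw [← Ordinal.mul_le_iff_le_div hc, ← Ordinal.mul_le_iff_le_div hb,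
    ← Ordinal.mul_le_iff_le_div (mul_ne_zero hb hc), mul_assoc]

theorem opw_ne (n : ℕ) : (ω : Ordinal.{0}) ^ (n : Ordinal.{0}) ≠ 0 :=
  (Ordinal.opow_pos _ Ordinal.omega0_pos).ne'

theorem omom_ne : (ω : Ordinal.{0}) ^ (ω : Ordinal.{0}) ≠ 0 :=
  (Ordinal.opow_pos _ Ordinal.omega0_pos).ne'

theorem exists_k {ρ : Ordinal.{0}} (h : ρ < (ω : Ordinal.{0}) ^ (ω : Ordinal.{0})) :
    ∃ k : ℕ, ρ < (ω : Ordinal.{0}) ^ (k : Ordinal.{0}) := by
  rw [Ordinal.lt_opow_of_isSuccLimit Ordinal.omega0_ne_zero Ordinal.isSuccLimit_omega0] at h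
  obtain ⟨c, hc, h⟩ := h
  obtain ⟨k, rfl⟩ := Ordinal.lt_omega0.1 hc
  exact ⟨k, h⟩

/-- digit function -/
noncomputable def dg (γ : Ordinal.{0}) (l : ℕ) : ℕ :=
  nn ((γ % (ω : Ordinal.{0}) ^ (ω : Ordinal.{0})) / (ω : Ordinal.{0}) ^ (l : Ordinal.{0}) % ω)

theorem dg_fin (γ : Ordinal.{0}) : (Function.support (dg γ)).Finite := by
  obtain ⟨k, hk⟩ := exists_k (Ordinal.mod_lt γ omom_ne)
  refine (Set.finite_lt_nat k).subset ?_
  intro l hl
  by_contra hlk
  apply hl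
  have hkl : k ≤ l := by simpa using hlk
  have h2 : γ % (ω : Ordinal.{0}) ^ (ω : Ordinal.{0}) < (ω : Ordinal.{0}) ^ (l : Ordinal.{0}) :=
    hk.trans_le (Ordinal.opow_le_opow_right Ordinal.omega0_pos (by exact_mod_cast hkl))
  unfold dg
  rw [Ordinal.div_eq_zero_of_lt h2, Ordinal.zero_mod, nn_zero]

theorem dg_lt {ρ ρ' : Ordinal.{0}} (h : ρ < ρ') (h' : ρ' < (ω : Ordinal.{0}) ^ (ω : Ordinal.{0})) :
    Ltf (fun l => nn (ρ / (ω : Ordinal.{0}) ^ (l : Ordinal.{0}) % ω))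
      (fun l => nn (ρ' / (ω : Ordinal.{0}) ^ (l : Ordinal.{0}) % ω)) := by
  classical
  obtain ⟨k, hk⟩ := exists_k h'
  have hex : ∃ l : ℕ, ρ / (ω : Ordinal.{0}) ^ (l : Ordinal.{0}) =
      ρ' / (ω : Ordinal.{0}) ^ (l : Ordinal.{0}) :=
    ⟨k, by rw [Ordinal.div_eq_zero_of_lt hk, Ordinal.div_eq_zero_of_lt (h.trans hk)]⟩
  have hspec := Nat.find_spec hex
  have hmin := fun m => @Nat.find_min _ _ hex m
  generalize Nat.find hex = j at hspec hmin
  rcases j with _ | i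
  · simp at hspec
    exact absurd hspec h.ne
  · have hne := hmin i (Nat.lt_succ_self i)
    have hle : ρ / (ω : Ordinal.{0}) ^ (i : Ordinal.{0}) ≤
        ρ' / (ω : Ordinal.{0}) ^ (i : Ordinal.{0}) := Ordinal.div_le_left h.le _
    have hlt := lt_of_le_of_ne hle hne
    have hstep : ∀ x : Ordinal.{0}, x / (ω : Ordinal.{0}) ^ (i : Ordinal.{0}) / ω =
        x / (ω : Ordinal.{0}) ^ ((i + 1 : ℕ) : Ordinal.{0}) := by
      intro x
      rw [div_div_om (opw_ne i) Ordinal.omega0_ne_zero]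
      congr 1
      rw [Nat.cast_add, Nat.cast_one, Ordinal.opow_add_one]
    refine ⟨i, ?_, ?_⟩
    · apply nn_lt _ (Ordinal.mod_lt _ Ordinal.omega0_ne_zero)
      set A := ρ / (ω : Ordinal.{0}) ^ (i : Ordinal.{0}) with hA
      set B := ρ' / (ω : Ordinal.{0}) ^ (i : Ordinal.{0}) with hB
      have hAB : A / ω = B / ω := by rw [hA, hB, hstep, hstep]; exact hspec
      have e1 := Ordinal.div_add_mod A ω
      have e2 := Ordinal.div_add_mod B ω
      rw [← e1, ← e2, hAB] at hlt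
      exact (add_lt_add_iff_left _).1 hlt
    · intro m hm
      have hm' : i + 1 ≤ m := hm
      obtain ⟨d, rfl⟩ := Nat.exists_eq_add_of_le hm'
      have key : ∀ x : Ordinal.{0}, x / (ω : Ordinal.{0}) ^ ((i + 1 + d : ℕ) : Ordinal.{0}) =
          x / (ω : Ordinal.{0}) ^ ((i + 1 : ℕ) : Ordinal.{0}) /
            (ω : Ordinal.{0}) ^ ((d : ℕ) : Ordinal.{0}) := by
        intro x
        rw [div_div_om (opw_ne (i+1)) (opw_ne d), ← Ordinal.opow_add]
        congr 2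
        push_cast
        rfl
      show nn _ = nn _
      rw [key ρ, key ρ', hspec]

theorem digits : ∃ (q : Ordinal.{0} → ℕ) (a : Ordinal.{0} → ℕ →₀ ℕ), ∀ γ δ : Ordinal.{0}, γ < δ →
    δ < (ω : Ordinal.{0}) ^ ((ω : Ordinal.{0}) + 1) →
    (q γ < q δ ∨ (q γ = q δ ∧ Ltf (a γ) (a δ))) := by
  refine ⟨fun γ => nn (γ / (ω : Ordinal.{0}) ^ (ω : Ordinal.{0})),
    fun γ => Finsupp.ofSupportFinite (dg γ) (dg_fin γ), ?_⟩
  intro γ δ hγδ hδ
  have hδ' : δ / (ω : Ordinal.{0}) ^ (ω : Ordinal.{0}) < ω := by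
    rw [← Ordinal.lt_mul_iff_div_lt omom_ne]
    rwa [Ordinal.opow_add_one] at hδ
  have hle : γ / (ω : Ordinal.{0}) ^ (ω : Ordinal.{0}) ≤ δ / (ω : Ordinal.{0}) ^ (ω : Ordinal.{0}) :=
    Ordinal.div_le_left hγδ.le _
  rcases lt_or_eq_of_le hle with hlt | heq
  · left
    exact nn_lt hlt hδ'
  · right
    refine ⟨by show nn _ = nn _; rw [heq], ?_⟩
    have e1 := Ordinal.div_add_mod γ ((ω : Ordinal.{0}) ^ (ω : Ordinal.{0}))
    have e2 := Ordinal.div_add_mod δ ((ω : Ordinal.{0}) ^ (ω : Ordinal.{0}))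
    have hlt : γ % (ω : Ordinal.{0}) ^ (ω : Ordinal.{0}) < δ % (ω : Ordinal.{0}) ^ (ω : Ordinal.{0}) := by
      have h3 := hγδ
      rw [← e1, ← e2, heq] at h3
      exact (add_lt_add_iff_left _).1 h3
    exact dg_lt hlt (Ordinal.mod_lt _ omom_ne)

end Pool.Agent.Helper75.OH
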