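import Pool.Agent.Helper75.OH.Defs

set_option autoImplicit false

namespace Pool.Agent.Helper75.OH
open Ordinal
open scoped commutatorElement


theorem eval_wd (p : ℕ) [Fact p.Prime] {R : Type} [CommRing R] (hp : (p : R) = 0) (I : Ideal R)
    {G : Type} [Group G] (tr : R → G) (lin : G → R)
    (hcomm : ∀ g h : G, ∃ r ∈ I, ⁅g, h⁆ = tr r)
    (hact : ∀ (g : G) (r : R), ⁅tr r, g⁆ = tr (-(lin g - 1) * r))
    (hpow : ∀ (g : G) (n : ℕ), lin (g ^ n) = lin g ^ n)
    (φ : FreeGroup ℕ →* G) (L : List ℕ) :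
    ∃ r ∈ I, φ (wd p L) = tr (r * lp p (fun k => lin (φ (FreeGroup.of k)) - 1) L) := by
  have hfrob : ∀ (l : ℕ) (x : R), x ^ (p ^ l) - 1 = (x - 1) ^ (p ^ l) := by
    intro l x
    rcases subsingleton_or_nontrivial R with hR | hR
    · exact Subsingleton.elim _ _
    · have hc : CharP R p :=
        ringChar.of_eq (CharP.ringChar_of_prime_eq_zero (Fact.out : p.Prime) hp)
      rw [sub_pow_char_pow, one_pow]
  induction L with
  | nil =>
    obtain ⟨r, hr, h⟩ := hcomm (φ (FreeGroup.of 0)) (φ (FreeGroup.of 1))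
    refine ⟨r, hr, ?_⟩
    show φ ⁅FreeGroup.of 0, FreeGroup.of 1⁆ = tr (r * 1)
    rw [map_commutatorElement, h, mul_one]
  | cons l L ih =>
    obtain ⟨r, hr, h⟩ := ih
    refine ⟨-r, I.neg_mem hr, ?_⟩
    show φ ⁅wd p L, FreeGroup.of (L.length + 2) ^ (p ^ l)⁆ =
      tr (-r * (lp p (fun k => lin (φ (FreeGroup.of k)) - 1) L *
        (lin (φ (FreeGroup.of (L.length + 2))) - 1) ^ (p ^ l)))
    rw [map_commutatorElement, h, hact, map_pow, hpow, hfrob]
    congr 1
    ring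

end Pool.Agent.Helper75.OH
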