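import Pool.Agent.Helper75.OH.Defs

set_option autoImplicit false

namespace Pool.Agent.Helper75.OH
open Ordinal
open scoped commutatorElement


theorem frob_sub_aux (p : ℕ) [hpf : Fact p.Prime] {R : Type} [CommRing R] (hp : (p : R) = 0)
    (x : R) (l : ℕ) : x ^ (p ^ l) - 1 = (x - 1) ^ (p ^ l) := by
  rcases subsingleton_or_nontrivial R with hs | hn
  · exact Subsingleton.elim _ _
  · obtain ⟨q, hq⟩ := CharP.exists R
    have hdvd : q ∣ p := (CharP.cast_eq_zero_iff R q p).mp hp
    have hqp : q = p := by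
      rcases (Nat.dvd_prime hpf.out).mp hdvd with h | h
      · exact absurd h (CharP.char_ne_one R q)
      · exact h
    subst hqp
    rw [sub_pow_char_pow, one_pow]

theorem eval_wdb (p : ℕ) [Fact p.Prime] {R : Type} [CommRing R] (hp : (p : R) = 0) (I : Ideal R)
    {G : Type} [Group G] (tr : R → G) (lin : G → R)
    (hact : ∀ (g : G) (r : R), ⁅tr r, g⁆ = tr (-(lin g - 1) * r))
    (hpow : ∀ (g : G) (n : ℕ), lin (g ^ n) = lin g ^ n)
    (φ : FreeGroup ℕ →* G) (h0 : φ (FreeGroup.of 0) = tr 1) (L : List ℕ) :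
    ∃ ε : R, (ε = 1 ∨ ε = -1) ∧ φ (wd p L) =
      tr (ε * (lin (φ (FreeGroup.of 1)) - 1) *
        lp p (fun k => lin (φ (FreeGroup.of k)) - 1) L) := by
  induction L with
  | nil =>
    refine ⟨-1, Or.inr rfl, ?_⟩
    simp only [wd, lp, map_commutatorElement, h0, hact]
    congr 1
    ring
  | cons l L ih =>
    obtain ⟨ε, hε, h⟩ := ih
    refine ⟨-ε, ?_, ?_⟩
    · rcases hε with rfl | rfl
      · exact Or.inr rfl
      · exact Or.inl (neg_neg 1)
    · simp only [wd, lp, map_commutatorElement, h, map_pow, hact, hpow]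
      rw [frob_sub_aux p hp]
      congr 1
      ring

end Pool.Agent.Helper75.OH
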