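import Pool.Agent.Helper75.OH.Defs

set_option autoImplicit false

namespace Pool.Agent.Helper75.OH
open Ordinal
open scoped commutatorElement


theorem lp_congr (p : ℕ) {R : Type} [CommRing R] (c c' : ℕ → R) (L : List ℕ)
    (h : ∀ k, k ≤ L.length + 1 → c k = c' k) : lp p c L = lp p c' L := by
  induction L with
  | nil => rfl
  | cons l L ih =>
    rw [lp, lp, ih (fun k hk => h k (by rw [List.length_cons]; omega)),
      h (L.length + 2) (by rw [List.length_cons])]

theorem exists_c (p : ℕ) {R : Type} [CommRing R] (y : ℕ → ℕ → R) (y0 : R) (L : List ℕ) :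
    ∃ c : ℕ → R, c 1 = y0 ∧ (∀ k, k ≠ 1 → c k = 0 ∨ ∃ m j, j < L.count m ∧ c k = y m j) ∧
      lp p c L = ∏ m ∈ L.toFinset, ∏ j ∈ Finset.range (L.count m), y m j ^ (p ^ m) := by
  induction L with
  | nil =>
    refine ⟨fun k => if k = 1 then y0 else 0, by simp, ?_, by simp [lp]⟩
    intro k hk
    left
    simp [hk]
  | cons l L ih =>
    obtain ⟨c, hc1, hc2, hc3⟩ := ih
    refine ⟨Function.update c (L.length + 2) (y l (L.count l)), ?_, ?_, ?_⟩
    · rw [Function.update_of_ne (by omega), hc1]
    · intro k hk
      by_cases hkk : k = L.length + 2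
      · right
        refine ⟨l, L.count l, ?_, ?_⟩
        · rw [List.count_cons_self]; omega
        · rw [hkk, Function.update_self]
      · rw [Function.update_of_ne hkk]
        rcases hc2 k hk with h | ⟨m, j, hj, h⟩
        · left; exact h
        · right
          refine ⟨m, j, lt_of_lt_of_le hj ?_, h⟩
          rw [List.count_cons]
          omega
    · rw [lp, Function.update_self, lp_congr p _ c L (fun k hk => by
        rw [Function.update_of_ne (by omega)]), hc3, List.toFinset_cons]
      have h1 : ∏ m ∈ insert l L.toFinset, ∏ j ∈ Finset.range (L.count m), y m j ^ (p ^ m) =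
          ∏ m ∈ L.toFinset, ∏ j ∈ Finset.range (L.count m), y m j ^ (p ^ m) := by
        apply Finset.prod_insert_of_eq_one_if_notMem
        intro hl
        rw [List.mem_toFinset] at hl
        rw [List.count_eq_zero_of_not_mem hl]
        simp
      rw [← h1]
      have h2 : ∀ m ∈ insert l L.toFinset,
          ∏ j ∈ Finset.range ((l :: L).count m), y m j ^ (p ^ m) =
          (∏ j ∈ Finset.range (L.count m), y m j ^ (p ^ m)) *
            (if m = l then y l (L.count l) ^ (p ^ l) else 1) := by
        intro m _
        by_cases hm : m = l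
        · subst hm
          rw [List.count_cons_self, Finset.prod_range_succ, if_pos rfl]
        · rw [List.count_cons_of_ne (Ne.symm hm), if_neg hm, mul_one]
      rw [Finset.prod_congr rfl h2, Finset.prod_mul_distrib, Finset.prod_ite_eq' ,
        if_pos (Finset.mem_insert_self _ _)]

end Pool.Agent.Helper75.OH
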