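import Pool.Agent.Helper75.OH.Defs
import Pool.Agent.Helper75.OH.P_chain_dichotomy

set_option autoImplicit false

namespace Pool.Agent.Helper75.OH
open Ordinal
open scoped commutatorElement


theorem exists_height (W : Subgroup (FreeGroup ℕ)) (hW : FI W)
    (hacc : ∀ N : ℕ → Subgroup (FreeGroup ℕ), (∀ n, FI (N n) ∧ W ≤ N n) →
      (∀ n, N n ≤ N (n + 1)) → ∃ n, N (n + 1) = N n)
    (α : Ordinal.{0}) (hα : Lower W α) : ∃ N, FI N ∧ Upper N α ∧ Lower N α := by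
  classical
  have hmax : ∃ N : Subgroup (FreeGroup ℕ), (FI N ∧ W ≤ N ∧ Lower N α) ∧
      ∀ N' : Subgroup (FreeGroup ℕ), FI N' ∧ W ≤ N' ∧ Lower N' α → ¬ N < N' := by
    by_contra hcon
    push Not at hcon
    choose! nx h1 h2 using hcon
    let sq : ℕ → Subgroup (FreeGroup ℕ) := fun n => Nat.rec W (fun _ x => nx x) n
    have hsq : ∀ n, FI (sq n) ∧ W ≤ sq n ∧ Lower (sq n) α := by
      intro n
      induction n with
      | zero => exact ⟨hW, le_refl W, hα⟩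
      | succ n ih => exact h1 (sq n) ih
    have hlt : ∀ n, sq n < sq (n + 1) := fun n => h2 (sq n) (hsq n)
    obtain ⟨n, hn⟩ := hacc sq (fun n => ⟨(hsq n).1, (hsq n).2.1⟩) (fun n => (hlt n).le)
    have := hlt n
    rw [hn] at this
    exact lt_irrefl _ this
  obtain ⟨N, ⟨hN1, hN2, hN3⟩, hN4⟩ := hmax
  refine ⟨N, hN1, ?_, hN3⟩
  intro S hS hc hw
  rcases chain_dichotomy S hc hw α with h | ⟨A, hA, g, hg1, hg2⟩
  · exact h
  · exfalso
    refine hN4 A ⟨(hS A hA).1, hN2.trans (hS A hA).2.le, ?_⟩ (hS A hA).2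
    intro β hβ
    refine ⟨g, fun γ hγ => ?_, fun γ δ hγδ hδ => hg2 γ δ hγδ (lt_of_le_of_lt hδ hβ)⟩
    have := hg1 γ (lt_of_le_of_lt hγ hβ)
    exact ⟨(hS _ this.1).1, this.2⟩

end Pool.Agent.Helper75.OH
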