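import Pool.Agent.Helper75.OH.Defs

set_option autoImplicit false

namespace Pool.Agent.Helper75.OH
open Ordinal
open scoped commutatorElement


/-- affine maps `x ↦ u x + r` with `u ≡ 1` modulo `I` -/
@[ext] structure Aff {R : Type} [CommRing R] (I : Ideal R) : Type where
  r : R
  u : Rˣ
  hu : (u : R) - 1 ∈ I

namespace Aff

variable {R : Type} [CommRing R] {I : Ideal R}

instance : Mul (Aff I) := ⟨fun g h => ⟨g.r + g.u * h.r, g.u * h.u, by
  have h1 := I.mul_mem_left (g.u : R) h.hu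
  have h2 := I.add_mem h1 g.hu
  have : ((g.u * h.u : Rˣ) : R) - 1 = (g.u : R) * ((h.u : R) - 1) + ((g.u : R) - 1) := by
    push_cast; ring
  rw [this]; exact h2⟩⟩

instance : One (Aff I) := ⟨⟨0, 1, by simp⟩⟩

instance : Inv (Aff I) := ⟨fun g => ⟨-((g.u⁻¹ : Rˣ) : R) * g.r, g.u⁻¹, by
  have h1 := I.mul_mem_left (-((g.u⁻¹ : Rˣ) : R)) g.hu
  have : ((g.u⁻¹ : Rˣ) : R) - 1 = -((g.u⁻¹ : Rˣ) : R) * ((g.u : R) - 1) := by
    have h2 : ((g.u⁻¹ : Rˣ) : R) * (g.u : R) = 1 := Units.inv_mul _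
    linear_combination h2
  rw [this]; exact h1⟩⟩

theorem mul_r (g h : Aff I) : (g * h).r = g.r + g.u * h.r := rfl
theorem mul_u (g h : Aff I) : (g * h).u = g.u * h.u := rfl
theorem one_r : (1 : Aff I).r = 0 := rfl
theorem one_u : (1 : Aff I).u = 1 := rfl
theorem inv_r (g : Aff I) : (g⁻¹).r = -((g.u⁻¹ : Rˣ) : R) * g.r := rfl
theorem inv_u (g : Aff I) : (g⁻¹).u = g.u⁻¹ := rfl

instance : Group (Aff I) := Group.ofLeftAxioms
  (by
    intro a b c
    apply Aff.ext
    · simp only [mul_r, mul_u, Units.val_mul]; ring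
    · simp only [mul_u, mul_assoc])
  (by
    intro a
    apply Aff.ext
    · simp [mul_r, one_r, one_u]
    · simp [mul_u, one_u])
  (by
    intro a
    apply Aff.ext
    · simp [mul_r, one_r, inv_r, inv_u]
    · simp [mul_u, one_u, inv_u])

theorem comm_r (g h : Aff I) : (⁅g, h⁆).r = ((g.u : R) - 1) * h.r - ((h.u : R) - 1) * g.r := by
  rw [commutatorElement_def]
  simp only [mul_r, mul_u, inv_r, inv_u, Units.val_mul]
  have h1 : (g.u : R) * ((g.u⁻¹ : Rˣ) : R) = 1 := Units.mul_inv _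
  have h2 : (h.u : R) * ((h.u⁻¹ : Rˣ) : R) = 1 := Units.mul_inv _
  linear_combination (-(h.u : R) * g.r - (h.u : R) * ((h.u⁻¹ : Rˣ) : R) * h.r) * h1 - h.r * h2

theorem comm_u (g h : Aff I) : (⁅g, h⁆).u = 1 := by
  rw [commutatorElement_def]
  simp only [mul_u, inv_u]
  rw [mul_comm g.u h.u]
  group

end Aff

theorem group_exists {R : Type} [CommRing R] (I : Ideal R) :
    ∃ (G : Type) (_ : Group G) (tr : R → G) (lin : G → R),
      (∀ r s, tr (r + s) = tr r * tr s) ∧ Function.Injective tr ∧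
      (∀ g h : G, ∃ r ∈ I, ⁅g, h⁆ = tr r) ∧
      (∀ (g : G) (r : R), ⁅tr r, g⁆ = tr (-(lin g - 1) * r)) ∧
      (∀ (g : G) (n : ℕ), lin (g ^ n) = lin g ^ n) ∧
      (∀ g : G, lin g - 1 ∈ I) ∧
      (∀ a ∈ I, IsUnit (1 + a) → ∃ g : G, lin g = 1 + a) := by
  refine ⟨Aff I, inferInstance, fun r => ⟨r, 1, by simp⟩, fun g => (g.u : R), ?_, ?_, ?_, ?_, ?_,
    ?_, ?_⟩
  · intro r s
    apply Aff.ext
    · simp [Aff.mul_r]
    · simp [Aff.mul_u]
  · intro r s h
    exact congrArg Aff.r h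
  · intro g h
    refine ⟨(⁅g, h⁆ : Aff I).r, ?_, ?_⟩
    · rw [Aff.comm_r]
      exact I.sub_mem (I.mul_mem_right _ g.hu) (I.mul_mem_right _ h.hu)
    · apply Aff.ext
      · rfl
      · exact Aff.comm_u g h
  · intro g r
    apply Aff.ext
    · rw [Aff.comm_r]
      simp only [Units.val_one]
      ring
    · exact Aff.comm_u _ _
  · intro g n
    induction n with
    | zero => simp [Aff.one_u]
    | succ n ih =>
      rw [pow_succ, pow_succ]
      simp only [Aff.mul_u, Units.val_mul]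
      simp only at ih
      rw [ih]
  · intro g
    exact g.hu
  · intro a ha hu
    refine ⟨⟨0, hu.unit, ?_⟩, ?_⟩
    · rw [IsUnit.unit_spec]; simpa using ha
    · simp

end Pool.Agent.Helper75.OH
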