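import Pool.Agent.Helper75.OH.Defs

set_option autoImplicit false

namespace Pool.Agent.Helper75.OH
open Ordinal
open scoped commutatorElement


theorem ring_exists (p : ℕ) [Fact p.Prime] {ι : Type} [Fintype ι] (n : ι → ℕ) :
    ∃ (R : Type) (_ : CommRing R) (y : ι → R), (p : R) = 0 ∧ (∀ s, y s ^ (n s + 1) = 0) ∧
      ∏ s, y s ^ (n s) ≠ 0 := by
  classical
  let S : Set (ι →₀ ℕ) := Set.range (fun s => Finsupp.single s (n s + 1))
  let I : Ideal (MvPolynomial ι (ZMod p)) :=
    Ideal.span ((fun s => MvPolynomial.monomial s (1 : ZMod p)) '' S)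
  refine ⟨MvPolynomial ι (ZMod p) ⧸ I, inferInstance,
    fun s => Ideal.Quotient.mk I (MvPolynomial.X s), ?_, ?_, ?_⟩
  · have h1 : ((p : ℕ) : MvPolynomial ι (ZMod p)) = 0 := by
      rw [← map_natCast (MvPolynomial.C), ZMod.natCast_self, map_zero]
    rw [← map_natCast (Ideal.Quotient.mk I), h1, map_zero]
  · intro s
    rw [← map_pow, Ideal.Quotient.eq_zero_iff_mem, MvPolynomial.X_pow_eq_monomial]
    exact Ideal.subset_span ⟨_, ⟨s, rfl⟩, rfl⟩
  · intro h
    have h2 : (∏ s, Ideal.Quotient.mk I (MvPolynomial.X s) ^ (n s)) =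
        Ideal.Quotient.mk I (MvPolynomial.monomial (Finsupp.equivFunOnFinite.symm n)
          (1 : ZMod p)) := by
      rw [MvPolynomial.monomial_eq, Finsupp.prod_fintype _ _ (fun i => pow_zero _)]
      simp
    rw [h2, Ideal.Quotient.eq_zero_iff_mem] at h
    have h3 := MvPolynomial.mem_ideal_span_monomial_image.mp h
    obtain ⟨si, ⟨s, rfl⟩, hs⟩ := h3 (Finsupp.equivFunOnFinite.symm n) (by
      rw [MvPolynomial.mem_support_iff, MvPolynomial.coeff_monomial, if_pos rfl]
      exact one_ne_zero)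
    have h4 := hs s
    simp at h4

end Pool.Agent.Helper75.OH
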