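import Pool.Agent.Helper75.OH.Defs
import Pool.Agent.Helper75.OH.P_I_pow

set_option autoImplicit false

namespace Pool.Agent.Helper75.OH
open Ordinal
open scoped commutatorElement


theorem unit_of_nil (p : ℕ) [Fact p.Prime] {R : Type} [CommRing R]
    (d : ℕ →₀ ℕ) (y0 : R) (y : ℕ → ℕ → R) (h0 : y0 ^ 2 = 0)
    (hy : ∀ m j, j < d m → y m j ^ (p ^ m + 1) = 0) (c : R)
    (hc : c ∈ Ideal.span ({y0} ∪ {z | ∃ m j, j < d m ∧ z = y m j})) : IsUnit (1 + c) := by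
  have h1 := I_pow p d y0 y h0 hy
  have h2 := Ideal.pow_mem_pow hc
    ((∑ m ∈ d.support, d m * (if 0 ≤ m then p ^ (m - 0) else 0)) + 2)
  rw [h1, Ideal.mem_bot] at h2
  exact IsNilpotent.isUnit_one_add ⟨_, h2⟩

end Pool.Agent.Helper75.OH
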