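import Pool.Agent.Helper75.OH.Defs

set_option autoImplicit false

namespace Pool.Agent.Helper75.OH
open Ordinal
open scoped commutatorElement


/-- If all `c_k^(p^l)` (`l ≥ i`) lie in `J^(p^(l-i))`, then the product lies in a large power. -/
theorem lp_mem (p : ℕ) {R : Type} [CommRing R] (J : Ideal R) (i : ℕ) (c : ℕ → R)
    (h : ∀ k l, i ≤ l → c k ^ (p ^ l) ∈ J ^ (p ^ (l - i))) (L : List ℕ) :
    lp p c L ∈ J ^ ((L.map (fun l => if i ≤ l then p ^ (l - i) else 0)).sum) := by
  induction L with
  | nil =>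
    rw [List.map_nil, List.sum_nil, pow_zero, Ideal.one_eq_top]
    exact Submodule.mem_top
  | cons l L ih =>
    rw [List.map_cons, List.sum_cons]
    change lp p c L * c (L.length + 2) ^ (p ^ l) ∈ _
    by_cases hl : i ≤ l
    · rw [if_pos hl, pow_add, mul_comm (J ^ p ^ (l - i))]
      exact Ideal.mul_mem_mul ih (h _ l hl)
    · rw [if_neg hl, zero_add]
      exact Ideal.mul_mem_right _ _ ih

end Pool.Agent.Helper75.OH
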