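import Pool.Agent.Helper75.OH.Defs

set_option autoImplicit false

namespace Pool.Agent.Helper75.OH
open Ordinal
open scoped commutatorElement


theorem pow_mem_J (p : ℕ) [Fact p.Prime] {R : Type} [CommRing R] (hp : (p : R) = 0)
    (d : ℕ →₀ ℕ) (y0 : R) (y : ℕ → ℕ → R) (h0 : y0 ^ 2 = 0)
    (hy : ∀ m j, j < d m → y m j ^ (p ^ m + 1) = 0) (c : R)
    (hc : c ∈ Ideal.span ({y0} ∪ {z | ∃ m j, j < d m ∧ z = y m j})) (i l : ℕ) (hi : 1 ≤ i)
    (hil : i ≤ l) :
    c ^ (p ^ l) ∈ (Ideal.span {z | ∃ m j, i ≤ m ∧ j < d m ∧ z = y m j ^ (p ^ i)}) ^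
      (p ^ (l - i)) := by
  rcases subsingleton_or_nontrivial R with hR | hR
  · rw [Subsingleton.elim (c ^ (p ^ l)) 0]
    exact Ideal.zero_mem _
  have hprime : p.Prime := Fact.out
  have hchar : CharP R p := (CharP.charP_iff_prime_eq_zero hprime).2 hp
  have hpi : 2 ≤ p ^ i := by
    calc 2 ≤ p := hprime.two_le
      _ = p ^ 1 := (pow_one p).symm
      _ ≤ p ^ i := Nat.pow_le_pow_right hprime.pos hi
  have key : c ^ (p ^ i) ∈ Ideal.span {z | ∃ m j, i ≤ m ∧ j < d m ∧ z = y m j ^ (p ^ i)} := by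
    refine Submodule.span_induction (p := fun c _ => c ^ (p ^ i) ∈
      Ideal.span {z | ∃ m j, i ≤ m ∧ j < d m ∧ z = y m j ^ (p ^ i)}) ?_ ?_ ?_ ?_ hc
    · rintro x (hx | ⟨m, j, hj, rfl⟩)
      · rw [Set.mem_singleton_iff] at hx
        rw [hx, pow_eq_zero_of_le hpi h0]
        exact Ideal.zero_mem _
      · by_cases him : i ≤ m
        · exact Ideal.subset_span ⟨m, j, him, hj, rfl⟩
        · have h1 : p ^ m + 1 ≤ p ^ i := by
            have h2 : p ^ m < p ^ i := Nat.pow_lt_pow_right hprime.one_lt (by omega)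
            omega
          rw [pow_eq_zero_of_le h1 (hy m j hj)]
          exact Ideal.zero_mem _
    · rw [zero_pow (by omega)]
      exact Ideal.zero_mem _
    · intro a b _ _ ha hb
      rw [add_pow_char_pow]
      exact Ideal.add_mem _ ha hb
    · intro a b _ hb
      rw [_root_.smul_eq_mul, mul_pow]
      exact Ideal.mul_mem_left _ _ hb
  have h1 : c ^ (p ^ l) = (c ^ (p ^ i)) ^ (p ^ (l - i)) := by
    rw [← pow_mul, ← pow_add, Nat.add_sub_cancel' hil]
  rw [h1]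
  exact Ideal.pow_mem_pow key _

end Pool.Agent.Helper75.OH
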