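import Pool.Agent.Helper75.OH.Defs

set_option autoImplicit false

namespace Pool.Agent.Helper75.OH
open Ordinal
open scoped commutatorElement


/-- Counting levels: the total weight of the levels `≥ i` of `L` exceeds the capacity. -/
theorem sum_lt (p : ℕ) (hp : 0 < p) (d : ℕ →₀ ℕ) (L : List ℕ) (i : ℕ) (hi : d i < L.count i)
    (hm : ∀ m, i < m → d m = L.count m) :
    (∑ m ∈ d.support, d m * (if i ≤ m then p ^ (m - i) else 0)) + 1 ≤
      (L.map (fun l => if i ≤ l then p ^ (l - i) else 0)).sum := by
  classical
  set w : ℕ → ℕ := fun l => if i ≤ l then p ^ (l - i) else 0 with hw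
  have e1 : (L.map w).sum = ∑ m ∈ d.support ∪ L.toFinset, L.count m * w m := by
    rw [Finset.sum_list_map_count]
    simp only [_root_.smul_eq_mul]
    apply Finset.sum_subset Finset.subset_union_right
    intro m _ hm'
    have : L.count m = 0 := List.count_eq_zero.2 (by simpa using hm')
    rw [this, zero_mul]
  have e2 : (∑ m ∈ d.support, d m * w m) = ∑ m ∈ d.support ∪ L.toFinset, d m * w m := by
    apply Finset.sum_subset Finset.subset_union_left
    intro m _ hm'
    have : d m = 0 := by simpa using hm'
    rw [this, zero_mul]
  show (∑ m ∈ d.support, d m * w m) + 1 ≤ (L.map w).sum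
  rw [e1, e2]
  apply Nat.succ_le_of_lt
  apply Finset.sum_lt_sum
  · intro m _
    rcases lt_trichotomy m i with h | h | h
    · have : w m = 0 := by simp [hw, not_le.2 h]
      simp [this]
    · subst h
      exact Nat.mul_le_mul_right _ hi.le
    · rw [hm m h]
  · refine ⟨i, ?_, ?_⟩
    · rw [Finset.mem_union, List.mem_toFinset]
      right
      exact List.count_pos_iff.1 (by omega)
    · have : w i = 1 := by simp [hw]
      rw [this]
      omega

end Pool.Agent.Helper75.OH
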