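import Pool.Agent.Helper75.OH.Defs
import Pool.Agent.Helper75.OH.P_lp_mem
import Pool.Agent.Helper75.OH.P_sum_lt
import Pool.Agent.Helper75.OH.P_pow_mem_J
import Pool.Agent.Helper75.OH.P_J_pow
import Pool.Agent.Helper75.OH.P_I_pow

set_option autoImplicit false

namespace Pool.Agent.Helper75.OH
open Ordinal
open scoped commutatorElement


theorem vanish (p : ℕ) [Fact p.Prime] {R : Type} [CommRing R] (hp : (p : R) = 0)
    (d : ℕ →₀ ℕ) (y0 : R) (y : ℕ → ℕ → R) (h0 : y0 ^ 2 = 0)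
    (hy : ∀ m j, j < d m → y m j ^ (p ^ m + 1) = 0) (L : List ℕ)
    (hL : Ltf d (fun m => L.count m)) (r : R) (c : ℕ → R)
    (hr : r ∈ Ideal.span ({y0} ∪ {z | ∃ m j, j < d m ∧ z = y m j}))
    (hc : ∀ k, c k ∈ Ideal.span ({y0} ∪ {z | ∃ m j, j < d m ∧ z = y m j})) :
    r * lp p c L = 0 := by
  obtain ⟨i, hi, hm⟩ := hL
  have hi' : d i < L.count i := hi
  have hm' : ∀ m, i < m → d m = L.count m := hm
  have hp0 : 0 < p := (Fact.out : p.Prime).pos
  have hs := sum_lt p hp0 d L i hi' hm'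
  rcases Nat.eq_zero_or_pos i with h | h
  · subst h
    have h1 := lp_mem p (Ideal.span ({y0} ∪ {z | ∃ m j, j < d m ∧ z = y m j})) 0 c
      (fun k l _ => by
        rw [Nat.sub_zero]; exact Ideal.pow_mem_pow (hc k) _) L
    have h2 := I_pow p d y0 y h0 hy
    have h3 := Ideal.mul_mem_mul hr h1
    rw [← pow_succ'] at h3
    have h5 := Ideal.pow_le_pow_right (I := Ideal.span ({y0} ∪ {z | ∃ m j, j < d m ∧ z = y m j}))
      (Nat.succ_le_succ hs) h3
    have h6 : r * lp p c L ∈ (⊥ : Ideal R) := by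
      rw [← h2]
      exact h5
    exact (Submodule.mem_bot R).1 h6
  · have h1 := lp_mem p (Ideal.span {z | ∃ m j, i ≤ m ∧ j < d m ∧ z = y m j ^ (p ^ i)}) i c
      (fun k l hil => pow_mem_J p hp d y0 y h0 hy (c k) (hc k) i l h hil) L
    have h2 := J_pow p d y hy i
    have h5 := Ideal.pow_le_pow_right
      (I := Ideal.span {z | ∃ m j, i ≤ m ∧ j < d m ∧ z = y m j ^ (p ^ i)}) hs h1
    have h6 : lp p c L ∈ (⊥ : Ideal R) := by
      rw [← h2]
      exact h5
    rw [(Submodule.mem_bot R).1 h6, mul_zero]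

end Pool.Agent.Helper75.OH
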