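import Pool.Agent.Helper75.OH.Defs
import Pool.Agent.Helper75.OH.P_ring_exists
import Pool.Agent.Helper75.OH.P_group_exists
import Pool.Agent.Helper75.OH.P_eval_wd
import Pool.Agent.Helper75.OH.P_eval_wdb
import Pool.Agent.Helper75.OH.P_exists_c
import Pool.Agent.Helper75.OH.P_vanish
import Pool.Agent.Helper75.OH.P_unit_of_nil

set_option autoImplicit false

namespace Pool.Agent.Helper75.OH
open Ordinal
open scoped commutatorElement


--#BPAUX eval_wdb

--#BPEND eval_wdb

theorem lp_congr_grp (p : ℕ) {R : Type} [CommRing R] (c c' : ℕ → R) (h : ∀ k, 2 ≤ k → c k = c' k) :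
    ∀ L : List ℕ, lp p c L = lp p c' L := by
  intro L
  induction L with
  | nil => rfl
  | cons l L ih =>
    unfold lp
    rw [ih, h (L.length + 2) (by omega)]

theorem grp (p : ℕ) [Fact p.Prime] (d : ℕ →₀ ℕ) :
    ∃ (G : Type) (_ : Group G),
      (∀ φ : FreeGroup ℕ →* G, ∀ w ∈ D2, φ w = 1) ∧
      (∀ φ : FreeGroup ℕ →* G, ∀ w ∈ D1, (φ w) ^ p = 1) ∧
      (∀ L : List ℕ, Ltf d (fun m => L.count m) → ∀ φ : FreeGroup ℕ →* G, φ (wd p L) = 1) ∧
      (∀ L : List ℕ, (∀ m, L.count m = d m) → ∃ φ : FreeGroup ℕ →* G, φ (wd p L) ≠ 1) := by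
  classical
  let n : Option (Σ m : d.support, Fin (d m)) → ℕ := fun s =>
    match s with
    | none => 1
    | some t => p ^ (t.1 : ℕ)
  obtain ⟨R, instR, y', hpR, hy', hprod⟩ := ring_exists p n
  let y0 : R := y' none
  let y : ℕ → ℕ → R := fun m j =>
    if h : m ∈ d.support ∧ j < d m then y' (some ⟨⟨m, h.1⟩, ⟨j, h.2⟩⟩) else 0
  have hyeq : ∀ (m : d.support) (j : Fin (d m)), y m j = y' (some ⟨m, j⟩) := by
    intro m j
    have h : (m : ℕ) ∈ d.support ∧ (j : ℕ) < d m := ⟨m.2, j.2⟩
    simp only [y]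
    rw [dif_pos h]
  have h0 : y0 ^ 2 = 0 := hy' none
  have hy : ∀ m j, j < d m → y m j ^ (p ^ m + 1) = 0 := by
    intro m j hj
    have hm : m ∈ d.support := by
      rw [Finsupp.mem_support_iff]
      omega
    have h1 := hyeq ⟨m, hm⟩ ⟨j, hj⟩
    have h2 := hy' (some ⟨⟨m, hm⟩, ⟨j, hj⟩⟩)
    rw [← h1] at h2
    exact h2
  obtain ⟨G, instG, tr, lin, hadd, hinj, hcomm, hact, hpow, hlin, hunit⟩ :=
    group_exists (Ideal.span ({y0} ∪ {z | ∃ m j, j < d m ∧ z = y m j}))
  have tr0 : tr 0 = 1 := by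
    have h := hadd 0 0
    rw [add_zero] at h
    exact (left_eq_mul.1 h)
  have trneg : ∀ r, tr (-r) = (tr r)⁻¹ := by
    intro r
    rw [eq_inv_iff_mul_eq_one, ← hadd, neg_add_cancel, tr0]
  let Tr : Subgroup G :=
    { carrier := Set.range tr
      mul_mem' := by
        rintro _ _ ⟨r, rfl⟩ ⟨s, rfl⟩
        exact ⟨r + s, hadd r s⟩
      one_mem' := ⟨0, tr0⟩
      inv_mem' := by
        rintro _ ⟨r, rfl⟩
        exact ⟨-r, trneg r⟩ }
  have hD1 : ∀ φ : FreeGroup ℕ →* G, ∀ w ∈ D1, ∃ r, tr r = φ w := by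
    intro φ w hw
    have h1 : D1 ≤ Tr.comap φ := by
      unfold D1
      rw [commutator_def, Subgroup.commutator_le]
      intro g1 _ g2 _
      rw [Subgroup.mem_comap, map_commutatorElement]
      obtain ⟨r, -, hr⟩ := hcomm (φ g1) (φ g2)
      exact ⟨r, hr.symm⟩
    exact h1 hw
  have htrc : ∀ r s, tr r * tr s = tr s * tr r := by
    intro r s
    rw [← hadd, ← hadd, add_comm]
  have htrpow : ∀ (k : ℕ) r, tr r ^ k = tr ((k : R) * r) := by
    intro k r
    induction k with
    | zero => simp [tr0]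
    | succ k ih =>
      rw [pow_succ, ih, ← hadd]
      push_cast
      congr 1
      ring
  refine ⟨G, instG, ?_, ?_, ?_, ?_⟩
  · intro φ w hw
    have h1 : D2 ≤ φ.ker := by
      unfold D2
      rw [Subgroup.commutator_le]
      intro g1 hg1 g2 hg2
      obtain ⟨r, hr⟩ := hD1 φ g1 hg1
      obtain ⟨s, hs⟩ := hD1 φ g2 hg2
      rw [MonoidHom.mem_ker, map_commutatorElement, ← hr, ← hs,
        commutatorElement_eq_one_iff_mul_comm]
      exact htrc r s
    exact h1 hw
  · intro φ w hw
    obtain ⟨r, hr⟩ := hD1 φ w hw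
    rw [← hr, htrpow, hpR, zero_mul, tr0]
  · intro L hL φ
    obtain ⟨r, hr, h⟩ := eval_wd p hpR _ tr lin hcomm hact hpow φ L
    rw [h, vanish p hpR d y0 y h0 hy L hL r _ hr (fun k => hlin _), tr0]
  · intro L hL
    obtain ⟨c, hc1, hck, hlp⟩ := exists_c p y y0 L
    have hcI : ∀ k, c k ∈ Ideal.span ({y0} ∪ {z | ∃ m j, j < d m ∧ z = y m j}) := by
      intro k
      by_cases hk : k = 1
      · rw [hk, hc1]
        exact Ideal.subset_span (Or.inl rfl)
      · rcases hck k hk with h | ⟨m, j, hj, h⟩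
        · rw [h]
          exact Ideal.zero_mem _
        · exact Ideal.subset_span (Or.inr ⟨m, j, by rw [← hL m]; exact hj, h⟩)
    have hg : ∀ k, ∃ g : G, lin g = 1 + c k := fun k =>
      hunit (c k) (hcI k) (unit_of_nil p d y0 y h0 hy (c k) (hcI k))
    choose g hg using hg
    refine ⟨FreeGroup.lift (fun k => if k = 0 then tr 1 else g k), ?_⟩
    obtain ⟨ε, hε, h⟩ := eval_wdb p hpR (Ideal.span ({y0} ∪ {z | ∃ m j, j < d m ∧ z = y m j}))
      tr lin hact hpow
      (FreeGroup.lift (fun k => if k = 0 then tr 1 else g k)) (by simp) L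
    rw [h]
    have e1 : lin ((FreeGroup.lift (fun k => if k = 0 then tr 1 else g k)) (FreeGroup.of 1)) - 1
        = y0 := by
      rw [FreeGroup.lift_apply_of]
      simp only [one_ne_zero, if_false]
      rw [hg, hc1]
      ring
    have e2 : lp p (fun k => lin ((FreeGroup.lift (fun k => if k = 0 then tr 1 else g k))
        (FreeGroup.of k)) - 1) L = lp p c L := by
      apply lp_congr_grp
      intro k hk
      beta_reduce
      rw [FreeGroup.lift_apply_of]
      rw [if_neg (by omega), hg]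
      ring
    rw [e1, e2, hlp]
    have hsupp : L.toFinset = d.support := by
      ext m
      rw [List.mem_toFinset, Finsupp.mem_support_iff, ← hL m, ← List.count_pos_iff]
      omega
    have hP : y0 * ∏ m ∈ L.toFinset, ∏ j ∈ Finset.range (L.count m), y m j ^ (p ^ m)
        = ∏ s, y' s ^ (n s) := by
      rw [Fintype.prod_option, Fintype.prod_sigma, hsupp]
      congr 1
      · exact (pow_one _).symm
      · rw [← Finset.prod_coe_sort]
        refine Finset.prod_congr rfl fun m _ => ?_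
        rw [hL m, Finset.prod_range]
        refine Finset.prod_congr rfl fun j _ => ?_
        rw [hyeq m j]
    intro hcontra
    rw [← tr0] at hcontra
    have h2 := hinj hcontra
    apply hprod
    rw [← hP]
    rcases hε with rfl | rfl
    · rw [one_mul] at h2
      exact h2
    · rw [neg_one_mul, neg_mul, neg_eq_zero] at h2
      exact h2

end Pool.Agent.Helper75.OH
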