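import Pool.Agent.Helper75.OH.Defs
import Pool.Agent.Helper75.OH.P_grp
import Pool.Agent.Helper75.OH.P_digits

set_option autoImplicit false

namespace Pool.Agent.Helper75.OH
open Ordinal
open scoped commutatorElement


theorem grp' (p : ℕ) [Fact p.Prime] (d : ℕ →₀ ℕ) :
    ∃ K : Subgroup (FreeGroup ℕ), FI K ∧ D2 ≤ K ∧ (∀ w ∈ D1, w ^ p ∈ K) ∧
      (∀ L : List ℕ, Ltf d (fun m => L.count m) → wd p L ∈ K) ∧
      (∀ L : List ℕ, (∀ m, L.count m = d m) → wd p L ∉ K) := by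
  obtain ⟨G, gi, h1, h2, h3, h4⟩ := grp p d
  refine ⟨⨅ φ : FreeGroup ℕ →* G, φ.ker, ?_, ?_, ?_, ?_, ?_⟩
  · intro ψ x hx
    rw [Subgroup.mem_iInf] at hx ⊢
    intro φ
    have := hx (φ.comp ψ)
    rw [MonoidHom.mem_ker] at this ⊢
    simpa using this
  · intro w hw
    rw [Subgroup.mem_iInf]
    intro φ
    exact h1 φ w hw
  · intro w hw
    rw [Subgroup.mem_iInf]
    intro φ
    rw [MonoidHom.mem_ker, map_pow]
    exact h2 φ w hw
  · intro L hL
    rw [Subgroup.mem_iInf]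
    intro φ
    exact h3 L hL φ
  · intro L hL hmem
    rw [Subgroup.mem_iInf] at hmem
    obtain ⟨φ, hφ⟩ := h4 L hL
    exact hφ (hmem φ)

theorem wd_mem (p : ℕ) (L : List ℕ) : wd p L ∈ D1 := by
  cases L with
  | nil => exact comm_mem_D1 _ _
  | cons l L => exact comm_mem_D1 _ _

theorem coprime_mem {G : Type} [Group G] (K : Subgroup G) (x : G) (P p : ℕ) (h : Nat.Coprime P p)
    (h1 : x ^ P ∈ K) (h2 : x ^ p ∈ K) : x ∈ K := by
  have hb : ((P.gcd p : ℕ) : ℤ) = P * P.gcdA p + p * P.gcdB p := Nat.gcd_eq_gcd_ab P p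
  rw [Nat.Coprime.gcd_eq_one h] at hb
  have : x = (x ^ P) ^ (P.gcdA p) * (x ^ p) ^ (P.gcdB p) := by
    rw [← zpow_natCast x P, ← zpow_natCast x p, ← zpow_mul, ← zpow_mul, ← zpow_add, ← hb]
    simp
  rw [this]
  exact K.mul_mem (K.zpow_mem h1 _) (K.zpow_mem h2 _)

theorem Ltf_trans {a b c : ℕ → ℕ} (h1 : Ltf a b) (h2 : Ltf b c) : Ltf a c := by
  obtain ⟨i, hi, hi'⟩ := h1
  obtain ⟨j, hj, hj'⟩ := h2
  rcases lt_trichotomy i j with h | h | h
  · exact ⟨j, by rw [hi' j h]; exact hj, fun m hm => by rw [hi' m (by omega), hj' m hm]⟩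
  · subst h
    exact ⟨i, by omega, fun m hm => by rw [hi' m hm, hj' m hm]⟩
  · exact ⟨i, by rw [← hj' i h]; exact hi, fun m hm => by rw [hi' m hm, hj' m (by omega)]⟩

theorem lower_D2 : Lower D2 ((ω : Ordinal.{0}) ^ ((ω : Ordinal.{0}) + 1)) := by
  have key : ∀ (j : ℕ) (d : ℕ →₀ ℕ), ∃ K : Subgroup (FreeGroup ℕ), FI K ∧ D2 ≤ K ∧
      (∀ w ∈ D1, w ^ (Nat.nth Nat.Prime j) ∈ K) ∧
      (∀ L : List ℕ, Ltf d (fun m => L.count m) → wd (Nat.nth Nat.Prime j) L ∈ K) ∧
      (∀ L : List ℕ, (∀ m, L.count m = d m) → wd (Nat.nth Nat.Prime j) L ∉ K) := by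
    intro j d
    have : Fact (Nat.nth Nat.Prime j).Prime := ⟨Nat.prime_nth_prime j⟩
    exact grp' (Nat.nth Nat.Prime j) d
  choose K hFI hD2 hexp hin hout using key
  obtain ⟨q, a, hqa⟩ := digits
  set al : Ordinal.{0} → ℕ → (ℕ →₀ ℕ) → Prop :=
    fun γ j d => j < q γ ∨ (j = q γ ∧ Ltf d (a γ)) with hal
  set g : Ordinal.{0} → Subgroup (FreeGroup ℕ) :=
    fun γ => ⨅ j : ℕ, ⨅ d : ℕ →₀ ℕ, ⨅ _ : al γ j d, K j d with hg
  have hmem : ∀ γ x, x ∈ g γ ↔ ∀ j d, al γ j d → x ∈ K j d := by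
    intro γ x
    simp only [hg, Subgroup.mem_iInf]
  have gFI : ∀ γ, FI (g γ) := by
    intro γ φ x hx
    rw [hmem] at hx ⊢
    intro j d hjd
    exact hFI j d φ x (hx j d hjd)
  have gD2 : ∀ γ, D2 ≤ g γ := by
    intro γ x hx
    rw [hmem]
    intro j d _
    exact hD2 j d hx
  have gstrict : ∀ γ δ : Ordinal.{0}, γ < δ → δ < (ω : Ordinal.{0}) ^ ((ω : Ordinal.{0}) + 1) →
      g δ < g γ := by
    intro γ δ hγδ hδ
    have h := hqa γ δ hγδ hδ
    refine lt_of_le_of_ne ?_ ?_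
    · intro x hx
      rw [hmem] at hx ⊢
      intro j d hjd
      refine hx j d ?_
      rcases hjd with h1 | ⟨h1, h2⟩
      · left
        rcases h with h3 | ⟨h3, _⟩
        · exact lt_trans h1 h3
        · rw [← h3]; exact h1
      · rcases h with h3 | ⟨h3, h4⟩
        · left; rw [h1]; exact h3
        · right; exact ⟨by rw [h1, h3], Ltf_trans h2 h4⟩
    · intro heq
      set j := q γ with hj
      set L : List ℕ := (Finsupp.toMultiset (a γ)).toList with hL
      have hcount : ∀ m, L.count m = a γ m := by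
        intro m
        rw [hL, ← Multiset.coe_count, Multiset.coe_toList, Finsupp.count_toMultiset]
      set P : ℕ := ∏ i ∈ Finset.range j, Nat.nth Nat.Prime i with hP
      have hw : (wd (Nat.nth Nat.Prime j) L) ^ P ∈ g γ := by
        rw [hmem]
        intro i d hid
        rcases hid with h1 | ⟨h1, h2⟩
        · obtain ⟨c, hc⟩ : Nat.nth Nat.Prime i ∣ P := Finset.dvd_prod_of_mem _ (Finset.mem_range.2 h1)
          rw [hc, pow_mul]
          exact (K i d).pow_mem (hexp i d _ (wd_mem _ _)) _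
        · rw [h1]
          refine (K _ d).pow_mem (hin _ d L ?_) _
          have : (fun m => L.count m) = (a γ : ℕ → ℕ) := funext hcount
          rw [this]
          exact h2
      rw [← heq, hmem] at hw
      have hall : al δ j (a γ) := by
        rcases h with h3 | ⟨h3, h4⟩
        · left; exact h3
        · right; exact ⟨h3, h4⟩
      have hw2 := hw j (a γ) hall
      refine hout j (a γ) L hcount (coprime_mem _ _ P (Nat.nth Nat.Prime j) ?_ hw2
        (hexp j (a γ) _ (wd_mem _ _)))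
      rw [hP]
      refine Nat.Coprime.prod_left fun i hi => ?_
      rw [Nat.coprime_primes (Nat.prime_nth_prime i) (Nat.prime_nth_prime j)]
      intro he
      have := Nat.nth_injective Nat.infinite_setOfPred_prime he
      have := Finset.mem_range.1 hi
      omega
  intro β hβ
  refine ⟨g, ?_, ?_⟩
  · intro γ hγ
    refine ⟨gFI γ, ?_⟩
    have h1 : γ + 1 < (ω : Ordinal.{0}) ^ ((ω : Ordinal.{0}) + 1) := by
      apply Ordinal.isPrincipal_add_omega0_opow
      · exact lt_of_le_of_lt hγ hβ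
      · refine Ordinal.one_lt_opow.2 ⟨Ordinal.one_lt_omega0, ?_⟩
        exact (lt_of_le_of_lt zero_le (lt_add_one (ω : Ordinal.{0}))).ne'
    exact lt_of_le_of_lt (gD2 (γ + 1)) (gstrict γ (γ + 1) (lt_add_one γ) h1)
  · intro γ δ hγδ hδ
    exact gstrict γ δ hγδ (lt_of_le_of_lt hδ hβ)

end Pool.Agent.Helper75.OH
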