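import Pool.Agent.Helper75.OH.Defs

set_option autoImplicit false

namespace Pool.Agent.Helper75.OH
open Ordinal
open scoped commutatorElement


theorem lower_mono (N : Subgroup (FreeGroup ℕ)) (α β : Ordinal.{0}) (h : α ≤ β)
    (hβ : Lower N β) : Lower N α := by
  exact fun γ hγ => hβ γ (hγ.trans_le h)

end Pool.Agent.Helper75.OH
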