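import Pool.Agent.Helper75.OH.Defs
import Pool.Agent.Helper75.OH.P_exists_height
import Pool.Agent.Helper75.OH.P_lower_D2
import Pool.Agent.Helper75.OH.P_lower_mono
import Pool.Agent.Helper75.OH.P_acc_D2

set_option autoImplicit false

namespace Pool.Agent.Helper75.OH
open Ordinal
open scoped commutatorElement


theorem main (α : Ordinal.{0}) (hα : α ≤ (ω : Ordinal.{0}) ^ ((ω : Ordinal.{0}) + 1)) :
    ∃ N, FI N ∧ Upper N α ∧ Lower N α := by
  have h1 : ∀ φ : FreeGroup ℕ →* FreeGroup ℕ, D1.map φ ≤ D1 := by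
    intro φ
    have h : D1.map φ = ⁅(⊤ : Subgroup (FreeGroup ℕ)).map φ, (⊤ : Subgroup (FreeGroup ℕ)).map φ⁆ :=
      Subgroup.map_commutator _ _ φ
    rw [h]
    exact Subgroup.commutator_mono le_top le_top
  have h2 : FI D2 := by
    intro φ x hx
    have h : D2.map φ ≤ D2 := by
      have h3 : D2.map φ = ⁅D1.map φ, D1.map φ⁆ := Subgroup.map_commutator _ _ φ
      rw [h3]
      exact Subgroup.commutator_mono (h1 φ) (h1 φ)
    exact h (Subgroup.mem_map_of_mem φ hx)
  exact exists_height D2 h2 acc_D2 α (lower_mono _ _ _ hα lower_D2)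

end Pool.Agent.Helper75.OH
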